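import Pool.Agent.GT34.Tp

set_option autoImplicit false

/-!
# NC86/Step: multiplication of the counting function by `N + a` keeps unimodality

If `W` has degree at most `n` and `ev p W N` is the counting function, `p = n + a - 1`, then
`(N + a) * ev p W N = ev (p + 1) W' N` with `W'_k = (k + a) W_k + (n + 1 - k) W_(k-1)`.
-/

open Polynomial

namespace Pool.NC86

open Pool.GT34

/-- Unimodality of the coefficients. -/
def Uni (h : ℕ[X]) : Prop :=
  ∃ m : ℕ, ∀ k : ℕ, (k < m → h.coeff k ≤ h.coeff (k + 1)) ∧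
    (m ≤ k → h.coeff (k + 1) ≤ h.coeff k)

/-- Image of the monomial `X ^ i`. -/
noncomputable def Sm (n a i : ℕ) : ℕ[X] := (i + a) • X ^ i + (n - i) • X ^ (i + 1)

/-- The step. -/
noncomputable def St (n a : ℕ) (h : ℕ[X]) : ℕ[X] :=
  ∑ i ∈ Finset.range (n + 1), h.coeff i • Sm n a i

lemma coeff_Sm (n a i k : ℕ) : (Sm n a i).coeff k =
    (if k = i then i + a else 0) + (if k = i + 1 then n - i else 0) := by
  unfold Sm
  rw [coeff_add, coeff_smul, coeff_smul, coeff_X_pow, coeff_X_pow, smul_eq_mul, smul_eq_mul,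
    mul_ite, mul_ite, mul_one, mul_one, mul_zero, mul_zero]

lemma coeff_St_zero (n a : ℕ) (h : ℕ[X]) : (St n a h).coeff 0 = a * h.coeff 0 := by
  unfold St
  rw [finsetSum_coeff, Finset.sum_eq_single 0]
  · rw [coeff_smul, coeff_Sm]
    simp [mul_comm]
  · intro i _ hi
    rw [coeff_smul, coeff_Sm, if_neg (by omega), if_neg (by omega)]
    simp
  · intro h
    exact absurd (Finset.mem_range.2 (Nat.succ_pos n)) h

lemma coeff_St_succ {n : ℕ} (a : ℕ) {h : ℕ[X]} (hd : ∀ k, n < k → h.coeff k = 0) (k : ℕ) :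
    (St n a h).coeff (k + 1) = (k + 1 + a) * h.coeff (k + 1) + (n - k) * h.coeff k := by
  unfold St
  rw [finsetSum_coeff]
  simp only [coeff_smul, coeff_Sm, smul_eq_mul, mul_add, mul_ite, mul_zero]
  rw [Finset.sum_add_distrib]
  have h1 : ∑ x ∈ Finset.range (n + 1), (if k + 1 = x then h.coeff x * (x + a) else 0) =
      (k + 1 + a) * h.coeff (k + 1) := by
    rw [Finset.sum_ite_eq]
    by_cases h2 : k + 1 ∈ Finset.range (n + 1)
    · rw [if_pos h2, mul_comm]
    · rw [if_neg h2]
      rw [Finset.mem_range] at h2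
      rw [hd (k + 1) (by omega), mul_zero]
  have h2 : ∑ x ∈ Finset.range (n + 1), (if k + 1 = x + 1 then h.coeff x * (n - x) else 0) =
      (n - k) * h.coeff k := by
    have e : ∀ x, (if k + 1 = x + 1 then h.coeff x * (n - x) else 0) =
        if k = x then h.coeff x * (n - x) else 0 := by
      intro x
      by_cases hx : k = x
      · rw [if_pos hx, if_pos (by omega)]
      · rw [if_neg hx, if_neg (by omega)]
    rw [Finset.sum_congr rfl fun x _ => e x, Finset.sum_ite_eq]
    by_cases h3 : k ∈ Finset.range (n + 1)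
    · rw [if_pos h3, mul_comm]
    · rw [if_neg h3]
      rw [Finset.mem_range] at h3
      rw [hd k (by omega), mul_zero]
  have h1' : ∑ x ∈ Finset.range (n + 1),
      (if k + 1 = x then h.coeff x * x + h.coeff x * a else 0) =
      (k + 1 + a) * h.coeff (k + 1) := by
    rw [← h1]
    refine Finset.sum_congr rfl fun x _ => ?_
    rw [mul_add]
  rw [h1', h2]

/-- The degree bound is kept. -/
lemma deg_St {n : ℕ} (a : ℕ) {h : ℕ[X]} (hd : ∀ k, n < k → h.coeff k = 0) :
    ∀ k, n < k → (St n a h).coeff k = 0 := by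
  intro k hk
  obtain ⟨k, rfl⟩ : ∃ j, k = j + 1 := ⟨k - 1, by omega⟩
  rw [coeff_St_succ a hd, hd (k + 1) hk, show n - k = 0 by omega]
  simp

/-- The step keeps unimodality. -/
theorem Uni.St {n a : ℕ} {h : ℕ[X]} (hd : ∀ k, n < k → h.coeff k = 0) (hu : Uni h) :
    Uni (St n a h) := by
  obtain ⟨m, hm⟩ := hu
  have hup : ∀ k, k < m → (NC86.St n a h).coeff k ≤ (NC86.St n a h).coeff (k + 1) := by
    intro k hk
    have h1 := (hm k).1 hk
    rcases Nat.eq_zero_or_pos k with rfl | hpos
    · rw [coeff_St_zero, coeff_St_succ a hd]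
      have : a * h.coeff 0 ≤ (0 + 1 + a) * h.coeff (0 + 1) :=
        Nat.mul_le_mul (by omega) h1
      omega
    · obtain ⟨j, rfl⟩ : ∃ j, k = j + 1 := ⟨k - 1, by omega⟩
      rw [coeff_St_succ a hd, coeff_St_succ a hd]
      have h2 := (hm j).1 (by omega)
      by_cases h3 : j < n
      · obtain ⟨d, hd'⟩ := Nat.exists_eq_add_of_lt h3
        rw [show n - j = d + 1 by omega, show n - (j + 1) = d by omega]
        calc (j + 1 + a) * h.coeff (j + 1) + (d + 1) * h.coeff j
            ≤ (j + 1 + a) * h.coeff (j + 1) + (d + 1) * h.coeff (j + 1) :=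
              Nat.add_le_add_left (Nat.mul_le_mul_left _ h2) _
          _ = (j + 1 + 1 + a) * h.coeff (j + 1) + d * h.coeff (j + 1) := by ring
          _ ≤ (j + 1 + 1 + a) * h.coeff (j + 1 + 1) + d * h.coeff (j + 1) :=
              Nat.add_le_add_right (Nat.mul_le_mul_left _ h1) _
      · rw [hd (j + 1) (by omega), show n - j = 0 by omega]
        simp
  have hdo : ∀ k, m < k → (NC86.St n a h).coeff (k + 1) ≤ (NC86.St n a h).coeff k := by
    intro k hk
    have h1 := (hm k).2 hk.le
    obtain ⟨j, rfl⟩ : ∃ j, k = j + 1 := ⟨k - 1, by omega⟩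
    rw [coeff_St_succ a hd, coeff_St_succ a hd]
    have h2 := (hm j).2 (by omega)
    by_cases h3 : j < n
    · obtain ⟨d, hd'⟩ := Nat.exists_eq_add_of_lt h3
      rw [show n - j = d + 1 by omega, show n - (j + 1) = d by omega]
      calc (j + 1 + 1 + a) * h.coeff (j + 1 + 1) + d * h.coeff (j + 1)
          ≤ (j + 1 + 1 + a) * h.coeff (j + 1) + d * h.coeff (j + 1) :=
            Nat.add_le_add_right (Nat.mul_le_mul_left _ h1) _
        _ = (j + 1 + a) * h.coeff (j + 1) + (d + 1) * h.coeff (j + 1) := by ring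
        _ ≤ (j + 1 + a) * h.coeff (j + 1) + (d + 1) * h.coeff j :=
            Nat.add_le_add_left (Nat.mul_le_mul_left _ h2) _
    · rw [hd (j + 1 + 1) (by omega), show n - (j + 1) = 0 by omega]
      simp
  by_cases h3 : (NC86.St n a h).coeff m ≤ (NC86.St n a h).coeff (m + 1)
  · refine ⟨m + 1, fun k => ⟨fun hk => ?_, fun hk => hdo k (by omega)⟩⟩
    rcases Nat.lt_succ_iff_lt_or_eq.1 hk with hk | rfl
    · exact hup k hk
    · exact h3
  · refine ⟨m, fun k => ⟨fun hk => hup k hk, fun hk => ?_⟩⟩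
    rcases Nat.lt_or_ge m k with hk' | hk'
    · exact hdo k hk'
    · have : k = m := le_antisymm hk' hk
      subst this
      exact (not_le.1 h3).le

/-- The basic identity. -/
lemma choose_identity' {n a i : ℕ} (hi : i ≤ n) (M : ℕ) :
    (M + i + (a + 1)) * Nat.choose (M + (n + a)) (n + a) =
      (i + (a + 1)) * Nat.choose (M + (n + a + 1)) (n + a + 1) +
        (n - i) * Nat.choose (M + (n + a)) (n + a + 1) := by
  have h1 : (M + (n + a) + 1) * Nat.choose (M + (n + a)) (n + a) =
      Nat.choose (M + (n + a + 1)) (n + a + 1) * (n + a + 1) := by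
    have := Nat.add_one_mul_choose_eq (M + (n + a)) (n + a)
    rw [show M + (n + a + 1) = M + (n + a) + 1 by ring]
    exact this
  have h2 : Nat.choose (M + (n + a)) (n + a + 1) * (n + a + 1) =
      Nat.choose (M + (n + a)) (n + a) * M := by
    have := Nat.choose_succ_right_eq (M + (n + a)) (n + a)
    rwa [show M + (n + a) - (n + a) = M by omega] at this
  obtain ⟨d, rfl⟩ := Nat.exists_eq_add_of_le hi
  have h3 : 0 < i + d + a + 1 := by omega
  apply Nat.eq_of_mul_eq_mul_right h3
  rw [show i + d - i = d by omega]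
  calc (M + i + (a + 1)) * Nat.choose (M + (i + d + a)) (i + d + a) * (i + d + a + 1)
      = (i + (a + 1)) * ((M + (i + d + a) + 1) * Nat.choose (M + (i + d + a)) (i + d + a)) +
          d * (Nat.choose (M + (i + d + a)) (i + d + a) * M) := by ring
    _ = (i + (a + 1)) * (Nat.choose (M + (i + d + a + 1)) (i + d + a + 1) * (i + d + a + 1)) +
          d * (Nat.choose (M + (i + d + a)) (i + d + a + 1) * (i + d + a + 1)) := by rw [h1, h2]
    _ = _ := by ring

lemma ev_Sm {n a i : ℕ} (hi : i ≤ n) (N : ℕ) :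
    ev (n + a + 1) (Sm n (a + 1) i) N = (N + (a + 1)) * ev (n + a) (X ^ i) N := by
  unfold Sm
  rw [ev_add, ev_smul, ev_smul, ev_X_pow, ev_X_pow, ev_X_pow]
  by_cases h1 : i ≤ N
  · rw [if_pos h1, if_pos h1]
    obtain ⟨M, rfl⟩ := Nat.exists_eq_add_of_le h1
    have h2 := choose_identity' (a := a) hi M
    rw [show i + M - i = M by omega, show (i + M + (a + 1)) = M + i + (a + 1) by ring, h2]
    congr 1
    rcases M with _ | M
    · rw [if_neg (by omega), Nat.choose_eq_zero_of_lt (by omega)]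
    · rw [if_pos (by omega), show i + (M + 1) - (i + 1) = M by omega,
        show M + (n + a + 1) = M + 1 + (n + a) by ring]
  · rw [if_neg h1, if_neg h1, if_neg (by omega)]
    simp

lemma eq_sum_of_deg {n : ℕ} {h : ℕ[X]} (hd : ∀ k, n < k → h.coeff k = 0) :
    h = ∑ i ∈ Finset.range (n + 1), h.coeff i • (X ^ i : ℕ[X]) := by
  ext k
  rw [finsetSum_coeff]
  simp only [coeff_smul, coeff_X_pow, smul_eq_mul, mul_ite, mul_one, mul_zero]
  rw [Finset.sum_ite_eq]
  by_cases h1 : k ∈ Finset.range (n + 1)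
  · rw [if_pos h1]
  · rw [if_neg h1, hd k (by rw [Finset.mem_range] at h1; omega)]

theorem ev_St {n a : ℕ} {h : ℕ[X]} (hd : ∀ k, n < k → h.coeff k = 0) (N : ℕ) :
    ev (n + a + 1) (St n (a + 1) h) N = (N + (a + 1)) * ev (n + a) h N := by
  conv_rhs => rw [eq_sum_of_deg hd]
  unfold St
  rw [ev_sum, ev_sum, Finset.mul_sum]
  refine Finset.sum_congr rfl fun i hi => ?_
  rw [Finset.mem_range] at hi
  rw [ev_smul, ev_smul, ev_Sm (by omega)]
  ring

/-- Multiplication by `(N + 1) ... (N + c)`. -/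
theorem exists_asc {n : ℕ} {h : ℕ[X]} (hd : ∀ k, n < k → h.coeff k = 0) (hu : Uni h) :
    ∀ c : ℕ, ∃ g : ℕ[X], (∀ k, n < k → g.coeff k = 0) ∧ Uni g ∧
      ∀ N, ev (n + c) g N = (N + 1).ascFactorial c * ev n h N := by
  intro c
  induction c with
  | zero => exact ⟨h, hd, hu, fun N => by simp⟩
  | succ c ih =>
    obtain ⟨g, h1, h2, h3⟩ := ih
    refine ⟨NC86.St n (c + 1) g, deg_St _ h1, h2.St h1, fun N => ?_⟩
    rw [← add_assoc, ev_St h1, h3, Nat.ascFactorial_succ]
    ring

/-- Unimodality after multiplication by a binomial coefficient. -/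
theorem uni_of_mul_choose {n c : ℕ} {h g : ℕ[X]} (hd : ∀ k, n < k → h.coeff k = 0) (hu : Uni h)
    (hg : ∀ N, ev (n + c) g N = Nat.choose (N + c) c * ev n h N) : Uni g := by
  obtain ⟨g', -, h2, h3⟩ := exists_asc hd hu c
  have e : Nat.factorial c • g = g' := by
    apply ev_inj (p := n + c)
    intro N
    rw [ev_smul, hg, h3, Nat.ascFactorial_eq_factorial_mul_choose]
    ring
  obtain ⟨m, hm⟩ := h2
  have hc : 0 < Nat.factorial c := Nat.factorial_pos c
  have ec : ∀ k, g'.coeff k = Nat.factorial c * g.coeff k := by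
    intro k
    rw [← e, coeff_smul, smul_eq_mul]
  refine ⟨m, fun k => ⟨fun hk => ?_, fun hk => ?_⟩⟩
  · have := (hm k).1 hk
    rw [ec, ec] at this
    exact Nat.le_of_mul_le_mul_left this hc
  · have := (hm k).2 hk
    rw [ec, ec] at this
    exact Nat.le_of_mul_le_mul_left this hc

end Pool.NC86
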