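import Pool.Agent.NC86.Cross
import Pool.Agent.UC86.Fam

set_option autoImplicit false

/-!
# NC86/Tptwo: the product with a log-concave factor keeps unimodality
-/

open Finset

namespace Pool.NC86

open Pool.UC86

/-- From adjacent minors to all minors on a rectangle of positive entries. -/
theorem tp2_of_adj {F : ℕ → ℕ → ℝ} {k i : ℕ} : ∀ {l i' : ℕ}, k ≤ l → i ≤ i' →
    (∀ r s, k ≤ r → r ≤ l → i ≤ s → s ≤ i' → 0 < F r s) →
    (∀ r s, k ≤ r → r < l → i ≤ s → s < i' →
      F r (s + 1) * F (r + 1) s ≤ F r s * F (r + 1) (s + 1)) →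
    F k i' * F l i ≤ F k i * F l i' := by
  intro l i' hkl hii hpos hadj
  -- two neighbouring rows
  have hrow : ∀ r, k ≤ r → r < l → ∀ s, i ≤ s → s ≤ i' →
      F r s * F (r + 1) i ≤ F r i * F (r + 1) s := by
    intro r hr hrl s hs
    induction s, hs using Nat.le_induction with
    | base => intro _; exact le_rfl
    | succ s hs ih =>
      intro hsi
      have h1 := ih (by omega)
      have h2 := hadj r s hr hrl hs (by omega)
      have p1 := hpos r s hr hrl.le hs (by omega)
      have p2 := hpos (r + 1) s (by omega) hrl hs (by omega)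
      have p3 := hpos r i hr hrl.le le_rfl hii
      have p4 := hpos (r + 1) (s + 1) (by omega) hrl (by omega) hsi
      have p5 := hpos (r + 1) i (by omega) hrl le_rfl hii
      refine le_of_mul_le_mul_left ?_ (mul_pos p1 p2)
      calc F r s * F (r + 1) s * (F r (s + 1) * F (r + 1) i)
          = (F r s * F (r + 1) i) * (F r (s + 1) * F (r + 1) s) := by ring
        _ ≤ (F r i * F (r + 1) s) * (F r s * F (r + 1) (s + 1)) :=
            mul_le_mul h1 h2 (mul_nonneg (hpos r (s + 1) hr hrl.le (by omega) hsi).le p2.le)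
              (mul_nonneg p3.le p2.le)
        _ = _ := by ring
  have hall : ∀ r, k ≤ r → r ≤ l → F k i' * F r i ≤ F k i * F r i' := by
    intro r hr
    induction r, hr using Nat.le_induction with
    | base => intro _; exact le_of_eq (mul_comm _ _)
    | succ r hr ih =>
      intro hrl
      have h1 := ih (by omega)
      have h2 := hrow r hr (by omega) i' hii le_rfl
      have p1 := hpos r i hr (by omega) le_rfl hii
      have p2 := hpos r i' hr (by omega) hii le_rfl
      have p3 := hpos k i le_rfl (by omega) le_rfl hii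
      have p5 := hpos (r + 1) i (by omega) hrl le_rfl hii
      refine le_of_mul_le_mul_left ?_ (mul_pos p1 p2)
      calc F r i * F r i' * (F k i' * F (r + 1) i)
          = (F k i' * F r i) * (F r i' * F (r + 1) i) := by ring
        _ ≤ (F k i * F r i') * (F r i * F (r + 1) i') :=
            mul_le_mul h1 h2 (mul_nonneg p2.le p5.le) (mul_nonneg p3.le p2.le)
        _ = _ := by ring
  exact hall l hkl le_rfl

/-- Log-concave without internal zeros gives `Pf`. -/
theorem Pf_of_lc {c : ℕ → ℕ} (h1 : ∀ k, c k * c (k + 2) ≤ c (k + 1) ^ 2)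
    (h2 : ∀ k, c (k + 1) ≠ 0 → c k ≠ 0) : Pf (fun j => (c j : ℝ)) := by
  have hdown : ∀ l k, k ≤ l → c l ≠ 0 → c k ≠ 0 := by
    intro l k hkl
    induction l, hkl using Nat.le_induction with
    | base => exact id
    | succ l _ ih => exact fun h => ih (h2 l h)
  refine ⟨fun i => Nat.cast_nonneg _, fun i j k hij => ?_⟩
  by_cases h0 : c (j + k) = 0
  · simp only [h0, Nat.cast_zero, mul_zero]
    exact mul_nonneg (Nat.cast_nonneg _) (Nat.cast_nonneg _)
  · have h := tp2_of_adj (F := fun r s => (c (i + k + r - s) : ℝ)) (k := 0) (i := 0)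
      (l := j - i) (i' := k) (Nat.zero_le _) (Nat.zero_le _)
      (fun r s _ hr _ hs => by
        have : c (i + k + r - s) ≠ 0 := hdown (j + k) _ (by omega) h0
        exact_mod_cast Nat.pos_of_ne_zero this)
      (fun r s _ hr _ hs => by
        have e1 : i + k + (r + 1) - s = (i + k + r - (s + 1)) + 2 := by omega
        have e2 : i + k + r - s = (i + k + r - (s + 1)) + 1 := by omega
        have e3 : i + k + (r + 1) - (s + 1) = (i + k + r - (s + 1)) + 1 := by omega
        simp only [e1, e2, e3]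
        have := h1 (i + k + r - (s + 1))
        have h' : (c (i + k + r - (s + 1)) : ℝ) * (c (i + k + r - (s + 1) + 2) : ℝ) ≤
            (c (i + k + r - (s + 1) + 1) : ℝ) ^ 2 := by exact_mod_cast this
        rw [← sq]
        exact h')
    rw [show i + k + 0 - k = i by omega, show i + k + (j - i) - 0 = j + k by omega,
      show i + k + 0 - 0 = i + k by omega, show i + k + (j - i) - k = j by omega] at h
    exact h

/-- The reversed window. -/
noncomputable def rv (c : ℕ → ℝ) (k z : ℕ) : ℝ := if z ≤ k then c (k - z) else 0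

lemma rv_nonneg {c : ℕ → ℝ} (hc : Pf c) (k z : ℕ) : 0 ≤ rv c k z := by
  unfold rv
  split_ifs
  · exact hc.1 _
  · exact le_rfl

lemma Pf_rv {c : ℕ → ℝ} (hc : Pf c) (k : ℕ) : Pf (rv c k) := by
  refine ⟨rv_nonneg hc k, fun i j r hij => ?_⟩
  by_cases h : j + r ≤ k
  · unfold rv
    rw [if_pos (by omega), if_pos h, if_pos (by omega), if_pos (by omega)]
    have := hc.2 (k - (j + r)) (k - (i + r)) r (by omega)
    rw [show k - (i + r) + r = k - i by omega, show k - (j + r) + r = k - j by omega] at this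
    linarith
  · have : rv c k (j + r) = 0 := by unfold rv; rw [if_neg h]
    rw [this, mul_zero]
    exact mul_nonneg (rv_nonneg hc _ _) (rv_nonneg hc _ _)

/-- The symmetrized product of sums. -/
theorem cheb (S : Finset ℕ) (f g u v : ℕ → ℝ)
    (h1 : ∀ y ∈ S, ∀ y' ∈ S, y ≤ y' → f y' * g y ≤ f y * g y')
    (h2 : ∀ y ∈ S, ∀ y' ∈ S, y ≤ y' → u y' * v y ≤ u y * v y') :
    (∑ y ∈ S, f y * v y) * (∑ y ∈ S, g y * u y) ≤ (∑ y ∈ S, f y * u y) * (∑ y ∈ S, g y * v y) := by
  have hn : 0 ≤ ∑ y ∈ S, ∑ y' ∈ S, (f y * g y' - f y' * g y) * (u y * v y' - u y' * v y) := by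
    refine Finset.sum_nonneg fun y hy => Finset.sum_nonneg fun y' hy' => ?_
    rcases le_total y y' with h | h
    · exact mul_nonneg (sub_nonneg.2 (h1 y hy y' hy' h)) (sub_nonneg.2 (h2 y hy y' hy' h))
    · exact mul_nonneg_of_nonpos_of_nonpos (by have := h1 y' hy' y hy h; linarith)
        (by have := h2 y' hy' y hy h; linarith)
  have e : ∑ y ∈ S, ∑ y' ∈ S, (f y * g y' - f y' * g y) * (u y * v y' - u y' * v y) =
      (∑ y ∈ S, f y * u y) * (∑ y ∈ S, g y * v y) - (∑ y ∈ S, f y * v y) * (∑ y ∈ S, g y * u y)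
      - (∑ y ∈ S, g y * u y) * (∑ y ∈ S, f y * v y)
      + (∑ y ∈ S, g y * v y) * (∑ y ∈ S, f y * u y) := by
    rw [Finset.sum_mul_sum, Finset.sum_mul_sum, Finset.sum_mul_sum, Finset.sum_mul_sum,
      ← Finset.sum_sub_distrib, ← Finset.sum_sub_distrib, ← Finset.sum_add_distrib]
    refine Finset.sum_congr rfl fun y _ => ?_
    rw [← Finset.sum_sub_distrib, ← Finset.sum_sub_distrib, ← Finset.sum_add_distrib]
    refine Finset.sum_congr rfl fun y' _ => ?_
    ring
  rw [e] at hn
  linarith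

/-- The ratio of neighbouring rows. -/
theorem row_ratio {c : ℕ → ℝ} (hc : Pf c) (a b m k : ℕ) :
    Nw b (a + 1) m (rv c (k + 1)) * Nw (b + 1) a m (rv c k) ≤
      Nw b (a + 1) m (rv c k) * Nw (b + 1) a m (rv c (k + 1)) := by
  unfold Nw
  refine cheb _ _ _ _ _ (fun y hy y' hy' hyy => ?_) (fun y hy y' hy' hyy => ?_)
  · rw [mem_range] at hy hy'
    have ha : (0 : ℝ) ≤ a := Nat.cast_nonneg _
    have hb : (0 : ℝ) ≤ b := Nat.cast_nonneg _
    have h1 : (0 : ℝ) ≤ y := Nat.cast_nonneg _
    have h2 : (y : ℝ) ≤ y' := by exact_mod_cast hyy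
    have h3 : (y' : ℝ) ≤ m := by exact_mod_cast (show y' ≤ m by omega)
    have k1 := gw_left b a m y
    have k2 := gw_right (a := b) (b := a) (m := m) (y := y) (by omega)
    have k1' := gw_left b a m y'
    have k2' := gw_right (a := b) (b := a) (m := m) (y := y') (by omega)
    have hP : 0 < ((b : ℝ) + 1) * ((a : ℝ) + 1) := by positivity
    refine le_of_mul_le_mul_left ?_ hP
    have C : ((a : ℝ) + 1 + (m - y')) * ((b : ℝ) + 1 + y) ≤
        ((a : ℝ) + 1 + (m - y)) * ((b : ℝ) + 1 + y') :=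
      mul_le_mul (by linarith) (by linarith) (by linarith) (by linarith)
    have D := mul_le_mul_of_nonneg_left C
      (mul_nonneg (gw_pos b a m y).le (gw_pos b a m y').le)
    calc ((b : ℝ) + 1) * ((a : ℝ) + 1) * (gw b (a + 1) m y' * gw (b + 1) a m y)
        = (((a : ℝ) + 1) * gw b (a + 1) m y') * (((b : ℝ) + 1) * gw (b + 1) a m y) := by ring
      _ = gw b a m y * gw b a m y' * (((a : ℝ) + 1 + (m - y')) * ((b : ℝ) + 1 + y)) := by
          rw [k1, k2']; ring
      _ ≤ gw b a m y * gw b a m y' * (((a : ℝ) + 1 + (m - y)) * ((b : ℝ) + 1 + y')) := D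
      _ = (((a : ℝ) + 1) * gw b (a + 1) m y) * (((b : ℝ) + 1) * gw (b + 1) a m y') := by
          rw [k1', k2]; ring
      _ = _ := by ring
  · by_cases h : y' ≤ k
    · unfold rv
      rw [if_pos h, if_pos (by omega), if_pos (by omega), if_pos (by omega)]
      have := hc.2 (k - y') (k - y) 1 (by omega)
      rw [show k - y + 1 = k + 1 - y by omega, show k - y' + 1 = k + 1 - y' by omega] at this
      linarith
    · have : rv c k y' = 0 := by unfold rv; rw [if_neg h]
      rw [this, zero_mul]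
      exact mul_nonneg (rv_nonneg hc _ _) (rv_nonneg hc _ _)

/-- The kernel. -/
noncomputable def KK (c : ℕ → ℝ) (m q s k i : ℕ) : ℝ :=
  ∑ j ∈ range (s + 1), c j * (cc m q i j k : ℝ)

lemma KK_nonneg {c : ℕ → ℝ} (hc : Pf c) (m q s k i : ℕ) : 0 ≤ KK c m q s k i :=
  Finset.sum_nonneg fun j _ => mul_nonneg (hc.1 j) (Nat.cast_nonneg _)

lemma KK_zero1 {c : ℕ → ℝ} {m q s k i : ℕ} (h : k < i) : KK c m q s k i = 0 := by
  refine Finset.sum_eq_zero fun j _ => ?_
  unfold cc
  rw [if_neg (by omega), Nat.cast_zero, mul_zero]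

lemma KK_zero2 {c : ℕ → ℝ} {m q s k i : ℕ} (hs : s ≤ q) (h : q + i < k) : KK c m q s k i = 0 := by
  refine Finset.sum_eq_zero fun j hj => ?_
  rw [mem_range] at hj
  rw [cc_zero1 (by omega) h, Nat.cast_zero, mul_zero]

theorem KK_eq {c : ℕ → ℝ} {m s i a b : ℕ} (hi : i ≤ m)
    (hcs : ∀ j, s < j → c j = 0) :
    KK c m (a + b) s (i + a) i = Nw b a m (rv c (i + a)) := by
  classical
  have e1 : KK c m (a + b) s (i + a) i =
      ∑ j ∈ range (i + a + 1), c j * (cc m (a + b) i j (i + a) : ℝ) := by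
    unfold KK
    rcases le_total s (i + a) with h | h
    · refine Finset.sum_subset (fun j hj => ?_) (fun j _ hj => ?_)
      · rw [mem_range] at hj ⊢; omega
      · rw [mem_range] at hj
        rw [hcs j (by omega), zero_mul]
    · refine (Finset.sum_subset (fun j hj => ?_) (fun j _ hj => ?_)).symm
      · rw [mem_range] at hj ⊢; omega
      · rw [mem_range] at hj
        unfold cc
        rw [if_neg (by omega), Nat.cast_zero, mul_zero]
  rw [e1, ← Finset.sum_range_reflect]
  have e2 : ∀ z ∈ range (i + a + 1), c (i + a + 1 - 1 - z) *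
      (cc m (a + b) i (i + a + 1 - 1 - z) (i + a) : ℝ) =
      if z ≤ m then gw b a m z * rv c (i + a) z else 0 := by
    intro z hz
    rw [mem_range] at hz
    rw [show i + a + 1 - 1 - z = i + a - z by omega]
    unfold cc
    rw [if_pos ⟨by omega, by omega⟩, show i + a - i = a by omega,
      show i + a - (i + a - z) = z by omega, show a + b + i - (i + a - z) = b + z by omega]
    by_cases hzm : z ≤ m
    · rw [if_pos hzm]
      unfold rv gw
      rw [if_pos (by omega), show m + (i + a - z) - i = a + (m - z) by omega,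
        ← Nat.choose_symm_add (a := b) (b := z)]
      push_cast
      ring
    · rw [if_neg hzm, Nat.choose_eq_zero_of_lt (show m + (i + a - z) - i < a by omega)]
      simp
  rw [Finset.sum_congr rfl e2]
  unfold Nw
  rcases le_total (i + a) m with h | h
  · have : ∑ z ∈ range (i + a + 1), (if z ≤ m then gw b a m z * rv c (i + a) z else 0) =
        ∑ z ∈ range (i + a + 1), gw b a m z * rv c (i + a) z := by
      refine Finset.sum_congr rfl fun z hz => ?_
      rw [mem_range] at hz
      rw [if_pos (by omega)]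
    rw [this]
    refine Finset.sum_subset (fun j hj => ?_) (fun j _ hj => ?_)
    · rw [mem_range] at hj ⊢; omega
    · rw [mem_range] at hj
      unfold rv
      rw [if_neg (by omega), mul_zero]
  · have : ∑ y ∈ range (m + 1), gw b a m y * rv c (i + a) y =
        ∑ z ∈ range (m + 1), (if z ≤ m then gw b a m z * rv c (i + a) z else 0) := by
      refine Finset.sum_congr rfl fun z hz => ?_
      rw [mem_range] at hz
      rw [if_pos (by omega)]
    rw [this]
    refine (Finset.sum_subset (fun j hj => ?_) (fun j _ hj => ?_)).symm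
    · rw [mem_range] at hj ⊢; omega
    · rw [mem_range] at hj
      rw [if_neg (by omega)]

lemma Nw_nonneg {c : ℕ → ℝ} (hc : Pf c) (a b m : ℕ) : 0 ≤ Nw a b m c :=
  Finset.sum_nonneg fun y _ => mul_nonneg (gw_pos a b m y).le (hc.1 y)

/-- A row is positive. -/
def Row (c : ℕ → ℝ) (m k : ℕ) : Prop := ∃ z, z ≤ m ∧ 0 < rv c k z

lemma Nw_pos {c : ℕ → ℝ} (hc : Pf c) {a b m k : ℕ} (h : Row c m k) : 0 < Nw a b m (rv c k) := by
  obtain ⟨z, hz, h⟩ := h
  exact Finset.sum_pos' (fun y _ => mul_nonneg (gw_pos a b m y).le (rv_nonneg hc k y))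
    ⟨z, mem_range.2 (by omega), mul_pos (gw_pos a b m z) h⟩

lemma Nw_zero {c : ℕ → ℝ} (hc : Pf c) {a b m k : ℕ} (h : ¬ Row c m k) :
    Nw a b m (rv c k) = 0 := by
  refine Finset.sum_eq_zero fun y hy => ?_
  rw [mem_range] at hy
  have : rv c k y = 0 := by
    by_contra hne
    exact h ⟨y, by omega, lt_of_le_of_ne (rv_nonneg hc k y) (Ne.symm hne)⟩
  rw [this, mul_zero]

lemma Row_down {c : ℕ → ℝ} (hdown : ∀ k l, k ≤ l → 0 < c l → 0 < c k) {m k l : ℕ} (hkl : k ≤ l)
    (h : Row c m l) : Row c m k := by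
  obtain ⟨z, hz, h⟩ := h
  unfold rv at h
  by_cases h1 : z ≤ l
  · rw [if_pos h1] at h
    by_cases h2 : z ≤ k
    · refine ⟨z, hz, ?_⟩
      unfold rv
      rw [if_pos h2]
      exact hdown _ _ (by omega) h
    · refine ⟨k, by omega, ?_⟩
      unfold rv
      rw [if_pos le_rfl]
      exact hdown _ _ (by omega) h
  · rw [if_neg h1] at h
    exact absurd h (lt_irrefl _)

/-- The kernel is totally positive of order two. -/
theorem KK_tp {c : ℕ → ℝ} (hc : Pf c) (hdown : ∀ k l, k ≤ l → 0 < c l → 0 < c k) {m q s : ℕ}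
    (hs : s ≤ q) (hcs : ∀ j, s < j → c j = 0) {k l i i' : ℕ} (hkl : k ≤ l) (hii : i ≤ i')
    (hi' : i' ≤ m) :
    KK c m q s k i' * KK c m q s l i ≤ KK c m q s k i * KK c m q s l i' := by
  have hnn : 0 ≤ KK c m q s k i * KK c m q s l i' :=
    mul_nonneg (KK_nonneg hc _ _ _ _ _) (KK_nonneg hc _ _ _ _ _)
  by_cases h1 : k < i'
  · rw [KK_zero1 h1, zero_mul]
    exact hnn
  by_cases h2 : q + i < l
  · rw [KK_zero2 hs h2, mul_zero]
    exact hnn
  rw [not_lt] at h1 h2
  have hval : ∀ r j, j ≤ r → r ≤ q + j → j ≤ m →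
      KK c m q s r j = Nw (q - (r - j)) (r - j) m (rv c r) := by
    intro r j h3 h4 h5
    obtain ⟨a, rfl⟩ := Nat.exists_eq_add_of_le h3
    obtain ⟨b, rfl⟩ := Nat.exists_eq_add_of_le (show a ≤ q by omega)
    rw [KK_eq h5 hcs, show j + a - j = a by omega, show a + b - a = b by omega]
  by_cases h3 : Row c m l
  · refine tp2_of_adj hkl hii (fun r j hr hrl hj hji => ?_) (fun r j hr hrl hj hji => ?_)
    · rw [hval r j (by omega) (by omega) (by omega)]
      exact Nw_pos hc (Row_down hdown hrl h3)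
    · obtain ⟨α, rfl⟩ : ∃ α, r = j + 1 + α := Nat.exists_eq_add_of_le (by omega)
      obtain ⟨β, rfl⟩ : ∃ β, q = α + 2 + β := Nat.exists_eq_add_of_le (by omega)
      rw [hval _ _ (by omega) (by omega) (by omega), hval _ _ (by omega) (by omega) (by omega),
        hval _ _ (by omega) (by omega) (by omega), hval _ _ (by omega) (by omega) (by omega)]
      rw [show j + 1 + α - (j + 1) = α by omega, show j + 1 + α + 1 - j = α + 2 by omega,
        show j + 1 + α - j = α + 1 by omega, show j + 1 + α + 1 - (j + 1) = α + 1 by omega,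
        show α + 2 + β - α = β + 2 by omega, show α + 2 + β - (α + 2) = β by omega,
        show α + 2 + β - (α + 1) = β + 1 by omega]
      have g1 := Nw_lc (Pf_rv hc (j + 1 + α + 1)) β α m
      have g2 := row_ratio hc α (β + 1) m (j + 1 + α)
      rw [show β + 1 + 1 = β + 2 by ring] at g2
      have hX : 0 < Nw (β + 2) α m (rv c (j + 1 + α + 1)) :=
        Nw_pos hc (Row_down hdown (by omega) h3)
      have n1 : 0 ≤ Nw (β + 2) α m (rv c (j + 1 + α)) := Nw_nonneg (Pf_rv hc _) _ _ _
      have n2 : 0 ≤ Nw (β + 1) (α + 1) m (rv c (j + 1 + α + 1)) := Nw_nonneg (Pf_rv hc _) _ _ _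
      refine le_of_mul_le_mul_left ?_ hX
      calc Nw (β + 2) α m (rv c (j + 1 + α + 1)) *
            (Nw (β + 2) α m (rv c (j + 1 + α)) * Nw β (α + 2) m (rv c (j + 1 + α + 1)))
          = Nw (β + 2) α m (rv c (j + 1 + α)) * (Nw β (α + 2) m (rv c (j + 1 + α + 1)) *
            Nw (β + 2) α m (rv c (j + 1 + α + 1))) := by ring
        _ ≤ Nw (β + 2) α m (rv c (j + 1 + α)) *
            Nw (β + 1) (α + 1) m (rv c (j + 1 + α + 1)) ^ 2 := mul_le_mul_of_nonneg_left g1 n1
        _ = Nw (β + 1) (α + 1) m (rv c (j + 1 + α + 1)) *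
            (Nw (β + 1) (α + 1) m (rv c (j + 1 + α + 1)) *
              Nw (β + 2) α m (rv c (j + 1 + α))) := by ring
        _ ≤ Nw (β + 1) (α + 1) m (rv c (j + 1 + α + 1)) *
            (Nw (β + 1) (α + 1) m (rv c (j + 1 + α)) *
              Nw (β + 2) α m (rv c (j + 1 + α + 1))) := mul_le_mul_of_nonneg_left g2 n2
        _ = _ := by ring
  · rw [hval l i (by omega) (by omega) (by omega), Nw_zero hc h3, mul_zero]
    exact hnn

/-- One sign change is kept. -/
theorem sign_change {F : ℕ → ℕ → ℝ} {m μ k l : ℕ} {D : ℕ → ℝ}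
    (hF : ∀ r i, 0 ≤ F r i)
    (htp : ∀ i i', i ≤ i' → i' ≤ m → F k i' * F l i ≤ F k i * F l i')
    (h1 : ∀ i, i ≤ μ → 0 ≤ D i) (h2 : ∀ i, μ < i → D i ≤ 0)
    (hT : ∑ i ∈ range (m + 1), D i * F k i < 0) : ∑ i ∈ range (m + 1), D i * F l i ≤ 0 := by
  classical
  set R : Finset ℕ := range (m + 1) with hR
  have hsplit : ∀ r, ∑ i ∈ R, D i * F r i = ∑ i ∈ R with i ≤ μ, D i * F r i -
      ∑ i ∈ R with ¬ i ≤ μ, (- D i) * F r i := by
    intro r
    rw [← Finset.sum_filter_add_sum_filter_not R (fun i => i ≤ μ)]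
    rw [sub_eq_add_neg, ← Finset.sum_neg_distrib]
    congr 1
    refine Finset.sum_congr rfl fun i _ => ?_
    ring
  set A : ℕ → ℝ := fun r => ∑ i ∈ R with i ≤ μ, D i * F r i with hA
  set B : ℕ → ℝ := fun r => ∑ i ∈ R with ¬ i ≤ μ, (- D i) * F r i with hB
  have hAn : ∀ r, 0 ≤ A r := fun r => Finset.sum_nonneg fun i hi =>
    mul_nonneg (h1 i (mem_filter.1 hi).2) (hF r i)
  have hBn : ∀ r, 0 ≤ B r := fun r => Finset.sum_nonneg fun i hi =>
    mul_nonneg (neg_nonneg.2 (h2 i (not_le.1 (mem_filter.1 hi).2))) (hF r i)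
  have key : A l * B k ≤ A k * B l := by
    simp only [hA, hB]
    rw [Finset.sum_mul_sum, Finset.sum_mul_sum]
    refine Finset.sum_le_sum fun i hi => Finset.sum_le_sum fun i' hi' => ?_
    rw [mem_filter] at hi hi'
    have hm : i' ≤ m := by
      have := hi'.1
      rw [hR, mem_range] at this
      omega
    have h3 := htp i i' (by omega) hm
    have h4 := mul_le_mul_of_nonneg_left h3
      (mul_nonneg (h1 i hi.2) (neg_nonneg.2 (h2 i' (not_le.1 hi'.2))))
    linarith
  rw [hsplit] at hT ⊢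
  have hT' : A k < B k := by
    have : A k - B k < 0 := hT
    linarith
  by_contra hcon
  have hcon' : B l < A l := by
    have : ¬ (A l - B l ≤ 0) := hcon
    linarith [not_le.1 this]
  have e1 : B l * B k < A l * B k := mul_lt_mul_of_pos_right hcon' (lt_of_le_of_lt (hAn k) hT')
  have e2 : A k * B l ≤ B k * B l := mul_le_mul_of_nonneg_right hT'.le (hBn l)
  linarith

/-- From the signs of the differences to unimodality. -/
theorem uni_of_signs {h : ℕ → ℕ} {T : ℕ → ℝ} {N : ℕ}
    (hT : ∀ k, T (k + 1) = (h (k + 1) : ℝ) - (h k : ℝ))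
    (hsc : ∀ k l, k ≤ l → T k < 0 → T l ≤ 0) (hz : ∀ k, N < k → h k = 0) :
    ∃ m : ℕ, ∀ k : ℕ, (k < m → h k ≤ h (k + 1)) ∧ (m ≤ k → h (k + 1) ≤ h k) := by
  classical
  by_cases hex : ∃ k, T (k + 1) < 0
  · refine ⟨Nat.find hex, fun k => ⟨fun hk => ?_, fun hk => ?_⟩⟩
    · have h1 := Nat.find_min hex hk
      rw [not_lt, hT] at h1
      have : (h k : ℝ) ≤ (h (k + 1) : ℝ) := by linarith
      exact_mod_cast this
    · have h1 := hsc (Nat.find hex + 1) (k + 1) (by omega) (Nat.find_spec hex)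
      rw [hT] at h1
      have : (h (k + 1) : ℝ) ≤ (h k : ℝ) := by linarith
      exact_mod_cast this
  · push Not at hex
    refine ⟨N + 1, fun k => ⟨fun _ => ?_, fun hk => ?_⟩⟩
    · have h1 := hex k
      rw [hT] at h1
      have : (h k : ℝ) ≤ (h (k + 1) : ℝ) := by linarith
      exact_mod_cast this
    · rw [hz (k + 1) (by omega)]
      exact Nat.zero_le _

/-- Pascal's rule for the structure numbers. -/
lemma cc_pascal {n q i j k : ℕ} (hi : i ≤ n) (hj : j ≤ q) :
    cc (n + 1) q i j (k + 1) + cc n q i j k = cc n q i j (k + 1) + cc (n + 1) q (i + 1) j (k + 1) := by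
  unfold cc
  by_cases hjk : j ≤ k + 1
  · rcases Nat.lt_trichotomy i (k + 1) with hik | hik | hik
    · by_cases hjk' : j ≤ k
      · rw [if_pos ⟨by omega, hjk⟩, if_pos ⟨by omega, hjk'⟩, if_pos ⟨by omega, hjk⟩,
          if_pos ⟨by omega, hjk⟩]
        rw [show n + 1 + j - i = (n + j - i) + 1 by omega, show k + 1 - i = (k - i) + 1 by omega,
          Nat.choose_succ_succ, show n + 1 + j - (i + 1) = n + j - i by omega,
          show k + 1 - (i + 1) = k - i by omega, show q + (i + 1) - j = (q + i - j) + 1 by omega,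
          show k + 1 - j = (k - j) + 1 by omega, Nat.choose_succ_succ (q + i - j)]
        ring
      · rw [if_pos ⟨by omega, hjk⟩, if_neg (by omega), if_pos ⟨by omega, hjk⟩,
          if_pos ⟨by omega, hjk⟩]
        rw [show n + 1 + j - i = (n + j - i) + 1 by omega, show k + 1 - i = (k - i) + 1 by omega,
          Nat.choose_succ_succ, show n + 1 + j - (i + 1) = n + j - i by omega,
          show k + 1 - (i + 1) = k - i by omega, show k + 1 - j = 0 by omega]
        simp only [Nat.choose_zero_right]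
        ring
    · subst hik
      rw [if_pos ⟨by omega, hjk⟩, if_neg (by omega), if_pos ⟨by omega, hjk⟩, if_neg (by omega)]
      simp
    · rw [if_neg (by omega), if_neg (by omega), if_neg (by omega), if_neg (by omega)]
  · rw [if_neg (by omega), if_neg (by omega), if_neg (by omega), if_neg (by omega)]

/-- Summation by parts. -/
lemma by_parts (w F : ℕ → ℝ) (n : ℕ) :
    ∑ i ∈ range (n + 2), (if i = 0 then w 0 else w i - w (i - 1)) * F i =
      w (n + 1) * F (n + 1) + ∑ i ∈ range (n + 1), w i * (F i - F (i + 1)) := by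
  induction n with
  | zero =>
    simp [Finset.sum_range_succ]
    ring
  | succ n ih =>
    rw [Finset.sum_range_succ, ih, Finset.sum_range_succ (n := n + 1)]
    rw [if_neg (by omega), show n + 2 - 1 = n + 1 by omega]
    ring

/-- The product with a log-concave factor keeps unimodality. -/
theorem uni_had {w c : ℕ → ℕ} {n q s : ℕ} (hs : s ≤ q) (hw : ∀ i, n < i → w i = 0)
    (hwu : ∃ μ : ℕ, ∀ k : ℕ, (k < μ → w k ≤ w (k + 1)) ∧ (μ ≤ k → w (k + 1) ≤ w k))
    (h1 : ∀ k, c k * c (k + 2) ≤ c (k + 1) ^ 2) (h2 : ∀ k, c (k + 1) ≠ 0 → c k ≠ 0)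
    (hcs : ∀ j, s < j → c j = 0) {h : ℕ → ℕ}
    (hh : ∀ k, h k = ∑ i ∈ range (n + 1), ∑ j ∈ range (s + 1), w i * c j * cc n q i j k)
    {N : ℕ} (hz : ∀ k, N < k → h k = 0) :
    ∃ m : ℕ, ∀ k : ℕ, (k < m → h k ≤ h (k + 1)) ∧ (m ≤ k → h (k + 1) ≤ h k) := by
  classical
  obtain ⟨μ, hμ⟩ := hwu
  set C : ℕ → ℝ := fun j => (c j : ℝ) with hC
  have hPf : Pf C := Pf_of_lc h1 h2
  have hdown' : ∀ l k, k ≤ l → c l ≠ 0 → c k ≠ 0 := by
    intro l k hkl
    induction l, hkl using Nat.le_induction with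
    | base => exact id
    | succ l _ ih => exact fun h => ih (h2 l h)
  have hdown : ∀ k l, k ≤ l → 0 < C l → 0 < C k := by
    intro k l hkl hl
    simp only [hC] at hl ⊢
    have h3 : 0 < c l := by exact_mod_cast hl
    exact_mod_cast Nat.pos_of_ne_zero (hdown' l k hkl h3.ne')
  have hCs : ∀ j, s < j → C j = 0 := fun j hj => by simp only [hC]; rw [hcs j hj, Nat.cast_zero]
  set D : ℕ → ℝ := fun i => if i = 0 then (w 0 : ℝ) else (w i : ℝ) - (w (i - 1) : ℝ) with hD
  set T : ℕ → ℝ := fun k => ∑ i ∈ range (n + 1 + 1), D i * KK C (n + 1) q s k i with hT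
  refine uni_of_signs (T := T) (N := N) (fun k => ?_) (fun k l hkl hneg => ?_) hz
  · -- the difference
    simp only [hT, hD]
    rw [by_parts (fun i => (w i : ℝ)) (fun i => KK C (n + 1) q s (k + 1) i) n]
    rw [hw (n + 1) (by omega), Nat.cast_zero, zero_mul, zero_add, hh, hh]
    push_cast
    rw [← Finset.sum_sub_distrib]
    refine Finset.sum_congr rfl fun i hi => ?_
    rw [mem_range] at hi
    unfold KK
    rw [← Finset.sum_sub_distrib, Finset.mul_sum, ← Finset.sum_sub_distrib]
    refine Finset.sum_congr rfl fun j hj => ?_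
    rw [mem_range] at hj
    have hp := cc_pascal (n := n) (q := q) (i := i) (j := j) (k := k) (by omega) (by omega)
    have hp' : (cc (n + 1) q i j (k + 1) : ℝ) + (cc n q i j k : ℝ) =
        (cc n q i j (k + 1) : ℝ) + (cc (n + 1) q (i + 1) j (k + 1) : ℝ) := by exact_mod_cast hp
    have hp2 : (cc (n + 1) q i j (k + 1) : ℝ) - (cc (n + 1) q (i + 1) j (k + 1) : ℝ) =
        (cc n q i j (k + 1) : ℝ) - (cc n q i j k : ℝ) := by linarith
    simp only [hC]
    rw [← mul_sub, hp2]
    ring
  · refine sign_change (μ := μ) (fun r i => KK_nonneg hPf _ _ _ _ _)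
      (fun i i' hii hi' => KK_tp hPf hdown hs hCs hkl hii hi') (fun i hi => ?_) (fun i hi => ?_) hneg
    · simp only [hD]
      split_ifs with h0
      · exact Nat.cast_nonneg _
      · have := (hμ (i - 1)).1 (by omega)
        rw [show i - 1 + 1 = i by omega] at this
        have h' : (w (i - 1) : ℝ) ≤ (w i : ℝ) := by exact_mod_cast this
        linarith
    · simp only [hD]
      rw [if_neg (by omega)]
      have := (hμ (i - 1)).2 (by omega)
      rw [show i - 1 + 1 = i by omega] at this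
      have h' : (w i : ℝ) ≤ (w (i - 1) : ℝ) := by exact_mod_cast this
      linarith

end Pool.NC86
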