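import Pool.Agent.NC86.Step
import Pool.Agent.GT34.Iso
import Pool.Agent.GT34.Link

set_option autoImplicit false

/-!
# NC86/Chain: components which are chains do not matter for unimodality
-/

open Polynomial

namespace Pool.NC86

open Pool.GT34

section Count

variable {V : Type} [PartialOrder V]

/-- The count is multiplicative over unions of components. -/
theorem Om_split (p : V → Prop) (hp : ∀ x y, p x → ¬ p y → ¬ x < y ∧ ¬ y < x) (ω : V → ℤ)
    (N : ℤ) : Om ω N = Om (fun x : {x // p x} => ω x) N * Om (fun x : {x // ¬ p x} => ω x) N := by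
  classical
  unfold Om
  rw [← Nat.card_prod]
  refine Nat.card_congr ?_
  refine
    { toFun := fun F => ⟨⟨fun x => F.1 x, fun x => F.2.1 x, fun x y hxy => F.2.2 x y hxy⟩,
        ⟨fun x => F.1 x, fun x => F.2.1 x, fun x y hxy => F.2.2 x y hxy⟩⟩
      invFun := fun q => ⟨fun z => if h : p z then q.1.1 ⟨z, h⟩ else q.2.1 ⟨z, h⟩, ?_, ?_⟩
      left_inv := ?_
      right_inv := ?_ }
  · intro z
    by_cases h : p z
    · simp only [h, dif_pos]; exact q.1.2.1 ⟨z, h⟩
    · simp only [h, dif_neg, not_false_iff]; exact q.2.2.1 ⟨z, h⟩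
  · intro y z hyz
    by_cases hy : p y
    · have hz : p z := by
        by_contra hz
        exact (hp y z hy hz).1 hyz
      simp only [hy, hz, dif_pos]
      exact q.1.2.2 ⟨y, hy⟩ ⟨z, hz⟩ hyz
    · have hz : ¬ p z := by
        intro hz
        exact (hp z y hz hy).2 hyz
      simp only [hy, hz, dif_neg, not_false_iff]
      exact q.2.2.2 ⟨y, hy⟩ ⟨z, hz⟩ hyz
  · rintro ⟨F, hF⟩
    simp only [Subtype.mk.injEq]
    funext z
    by_cases h : p z
    · simp [h]
    · simp [h]
  · rintro ⟨⟨f, hf⟩, ⟨g, hg⟩⟩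
    simp only [Prod.mk.injEq, Subtype.mk.injEq]
    constructor
    · funext z
      simp [z.2]
    · funext z
      simp [z.2]

/-- Transport of the count. -/
theorem Om_congr {V' : Type} [PartialOrder V'] (e : V ≃o V') (ω : V → ℤ) (ω' : V' → ℤ)
    (he : ∀ x, ω' (e x) = ω x) (N : ℤ) : Om ω N = Om ω' N := by
  unfold Om
  refine Nat.card_congr ?_
  refine
    { toFun := fun F => ⟨fun x => F.1 (e.symm x), fun x => F.2.1 _, fun x y hxy => ?_⟩
      invFun := fun G => ⟨fun x => G.1 (e x), fun x => G.2.1 _, fun x y hxy => ?_⟩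
      left_inv := ?_
      right_inv := ?_ }
  · have h1 := F.2.2 (e.symm x) (e.symm y) (e.symm.lt_iff_lt.2 hxy)
    rwa [← he, ← he, e.apply_symm_apply, e.apply_symm_apply] at h1
  · have h1 := G.2.2 (e x) (e y) (e.lt_iff_lt.2 hxy)
    rwa [he, he] at h1
  · rintro ⟨F, hF⟩
    simp
  · rintro ⟨G, hG⟩
    simp

theorem W_congr {V' : Type} [PartialOrder V'] [Fintype V] [Fintype V'] [Nonempty V] (e : V ≃o V')
    (ω : V → ℤ) (ω' : V' → ℤ) (hi : Function.Injective ω) (hi' : Function.Injective ω')
    (he : ∀ x, ω' (e x) = ω x) :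
    W (Dl ω) (Finset.univ : Finset V) = W (Dl ω') (Finset.univ : Finset V') := by
  have : Nonempty V' := e.toEquiv.nonempty_congr.1 inferInstance
  have hc : Fintype.card V = Fintype.card V' := Fintype.card_congr e.toEquiv
  apply ev_inj (p := Fintype.card V)
  intro N
  rw [← Om_eq_ev ω hi N, Om_congr e ω ω' he, hc, Om_eq_ev ω' hi' N]

end Count

section Chain

variable {V : Type} [PartialOrder V]

lemma mins_chain (htot : ∀ x y : V, x ≤ y ∨ y ≤ x) {S : Finset V} (hS : S.Nonempty) :
    ∃ y ∈ S, mins S = {y} ∧ ∀ z ∈ del S y, y < z := by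
  classical
  obtain ⟨y, hy⟩ := mins_nonempty hS
  rw [mem_mins] at hy
  have h1 : ∀ z ∈ S, y ≤ z := by
    intro z hz
    rcases htot y z with h | h
    · exact h
    · rcases h.eq_or_lt with h | h
      · exact h.symm.le
      · exact absurd h (hy.2 z hz)
  refine ⟨y, hy.1, ?_, fun z hz => ?_⟩
  · ext z
    rw [mem_mins, Finset.mem_singleton]
    constructor
    · rintro ⟨hz, h2⟩
      rcases (h1 z hz).eq_or_lt with h | h
      · exact h.symm
      · exact absurd h (h2 y hy.1)
    · rintro rfl
      exact hy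
  · rw [mem_del] at hz
    exact lt_of_le_of_ne (h1 z hz.2) (Ne.symm hz.1)

lemma Gf_chain (htot : ∀ x y : V, x ≤ y ∨ y ≤ x) (ω : V → ℤ) (hω : ∀ x y, x < y → ω x < ω y) :
    ∀ (n : ℕ) (x : V) (S : Finset V), S.card = n → (∀ y ∈ S, x < y) → Gf (Dl ω) n x S = 1 := by
  classical
  intro n
  induction n with
  | zero => intro x S _ _; rfl
  | succ n ih =>
    intro x S hS hx
    have hne : S.Nonempty := Finset.card_pos.1 (by omega)
    obtain ⟨y, hy, h1, h2⟩ := mins_chain htot hne
    have hc := card_del hy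
    rw [Gf, h1, Finset.sum_singleton, ih y (del S y) (by omega) h2, mul_one]
    unfold st Dl
    rw [if_neg (not_lt.2 (hω x y (hx y hy)).le)]

theorem W_chain [Fintype V] [Nonempty V] (htot : ∀ x y : V, x ≤ y ∨ y ≤ x) (ω : V → ℤ)
    (hω : ∀ x y, x < y → ω x < ω y) : W (Dl ω) (Finset.univ : Finset V) = 1 := by
  classical
  obtain ⟨y, hy, h1, h2⟩ := mins_chain htot (S := (Finset.univ : Finset V)) Finset.univ_nonempty
  rw [W, h1, Finset.sum_singleton]
  exact Gf_chain htot ω hω _ y _ rfl h2

theorem Om_chain [Fintype V] [Nonempty V] (htot : ∀ x y : V, x ≤ y ∨ y ≤ x) (ω : V → ℤ)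
    (hi : Function.Injective ω) (hω : ∀ x y, x < y → ω x < ω y) (N : ℕ) :
    Om ω N = Nat.choose (N + Fintype.card V) (Fintype.card V) := by
  rw [Om_eq_ev ω hi N, W_chain htot ω hω, ← pow_zero (X : ℕ[X]), ev_X_pow,
    if_pos (Nat.zero_le N), Nat.sub_zero]

end Chain

section Comp

lemma uni_zero : Uni 0 := ⟨0, fun k => by simp⟩

lemma uni_one : Uni 1 := by
  refine ⟨0, fun k => ⟨fun h => by omega, fun _ => ?_⟩⟩
  rw [coeff_one, coeff_one, if_neg (Nat.succ_ne_zero k)]
  exact Nat.zero_le _

lemma W_empty_type {V : Type} [PartialOrder V] [Fintype V] [IsEmpty V] (D : V → V → Prop) :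
    W D (Finset.univ : Finset V) = 0 := by
  unfold W
  refine Finset.sum_eq_zero fun y _ => ?_
  exact isEmptyElim y

/-- One component which is a chain. -/
theorem uni_chain_comp {V : Type} [PartialOrder V] [Fintype V] (p : V → Prop) [Fintype {x // p x}]
    [Fintype {x // ¬ p x}] (hp : ∀ x y, p x → ¬ p y → ¬ x < y ∧ ¬ y < x)
    (hc : ∀ x y, p x → p y → x ≤ y ∨ y ≤ x) (ω : V → ℤ) (hi : Function.Injective ω)
    (hω : ∀ x y, x < y → ω x < ω y) (hne : ∃ x, p x)
    (hU : Uni (W (Dl (fun x : {x // ¬ p x} => ω x)) Finset.univ)) :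
    Uni (W (Dl ω) (Finset.univ : Finset V)) := by
  classical
  obtain ⟨x0, hx0⟩ := hne
  have : Nonempty V := ⟨x0⟩
  have : Nonempty {x // p x} := ⟨⟨x0, hx0⟩⟩
  rcases isEmpty_or_nonempty {x // ¬ p x} with h | h
  · have hall : ∀ x, p x := fun x => by
      by_contra hx
      exact h.false ⟨x, hx⟩
    rw [W_chain (fun x y => hc x y (hall x) (hall y)) ω hω]
    exact uni_one
  · have hcard : Fintype.card V = Fintype.card {x // ¬ p x} + Fintype.card {x // p x} := by
      have := Fintype.card_subtype_compl p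
      have h2 := Fintype.card_subtype_le p
      have e1 : Fintype.card {x // ¬ p x} = Fintype.card V - Fintype.card {x // p x} := by
        rw [← this]
      omega
    have hiQ : Function.Injective (fun x : {x // ¬ p x} => ω x) := hi.comp Subtype.val_injective
    have hiK : Function.Injective (fun x : {x // p x} => ω x) := hi.comp Subtype.val_injective
    refine uni_of_mul_choose (n := Fintype.card {x // ¬ p x}) (c := Fintype.card {x // p x})
      (fun k hk => coeff_W_eq_zero _ _ (by rw [Finset.card_univ]; omega) Finset.univ_nonempty)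
      hU fun N => ?_
    rw [← hcard, ← Om_eq_ev ω hi N, Om_split p hp, Om_eq_ev _ hiQ N,
      Om_chain (V := {x // p x}) (fun x y => hc x.1 y.1 x.2 y.2) _ hiK
        (fun x y hxy => hω x y hxy) N]

/-- All components inside `p` are chains: they do not matter. -/
theorem uni_of_exempt : ∀ (n : ℕ) (V : Type) [PartialOrder V] [Fintype V] (p : V → Prop)
    [Fintype {x // ¬ p x}], Fintype.card V = n →
    (∀ x y, p x → (x ≤ y ∨ y ≤ x) → p y) →
    (∀ x y z, p x → (x ≤ y ∨ y ≤ x) → (y ≤ z ∨ z ≤ y) → (x ≤ z ∨ z ≤ x)) →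
    ∀ ω : V → ℤ, Function.Injective ω → (∀ x y, x < y → ω x < ω y) →
    Uni (W (Dl (fun x : {x // ¬ p x} => ω x)) Finset.univ) →
    Uni (W (Dl ω) (Finset.univ : Finset V)) := by
  classical
  intro n
  induction n using Nat.strong_induction_on with
  | _ n ih =>
    intro V _ _ p _ hn hp1 hp2 ω hi hω hU
    by_cases hex : ∃ x, p x
    · obtain ⟨x, hx⟩ := hex
      -- the component of `x`
      set K : V → Prop := fun y => x ≤ y ∨ y ≤ x with hK
      have hKp : ∀ y, K y → p y := fun y hy => hp1 x y hx hy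
      have hK1 : ∀ y z, K y → ¬ K z → ¬ y < z ∧ ¬ z < y := by
        intro y z hy hz
        exact ⟨fun h => hz (hp2 x y z hx hy (Or.inl h.le)),
          fun h => hz (hp2 x y z hx hy (Or.inr h.le))⟩
      have hK2 : ∀ y z, K y → K z → y ≤ z ∨ z ≤ y := by
        intro y z hy hz
        exact hp2 y x z (hKp y hy) hy.symm hz
      have hcard : Fintype.card {y // ¬ K y} < n := by
        rw [← hn]
        exact Fintype.card_subtype_lt (x := x) (fun h => h (Or.inl le_rfl))
      refine uni_chain_comp K hK1 hK2 ω hi hω ⟨x, Or.inl le_rfl⟩ ?_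
      refine ih _ hcard {y // ¬ K y} (fun y => p y) rfl (fun y z hy hyz => hp1 y z hy hyz)
        (fun y z w hy h1 h2 => hp2 y z w hy h1 h2) _ (hi.comp Subtype.val_injective)
        (fun y z hyz => hω y z hyz) ?_
      -- transport
      let e : {y : V // ¬ p y} ≃o {z : {y : V // ¬ K y} // ¬ p z} :=
        { toFun := fun y => ⟨⟨y.1, fun h => y.2 (hKp y.1 h)⟩, y.2⟩
          invFun := fun z => ⟨z.1.1, z.2⟩
          left_inv := fun y => rfl
          right_inv := fun z => rfl
          map_rel_iff' := Iff.rfl }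
      rcases isEmpty_or_nonempty {y : V // ¬ p y} with h | h
      · have : IsEmpty {z : {y : V // ¬ K y} // ¬ p z} := e.symm.toEquiv.isEmpty
        rw [W_empty_type]
        exact uni_zero
      · have h4 := W_congr e (fun y : {y : V // ¬ p y} => ω y)
          (fun z : {z : {y : V // ¬ K y} // ¬ p z} => ω z)
          (hi.comp Subtype.val_injective)
          ((hi.comp Subtype.val_injective).comp Subtype.val_injective) (fun y => rfl)
        rw [← h4]
        exact hU
    · push Not at hex
      let e : {y : V // ¬ p y} ≃o V :=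
        { toFun := fun y => y.1
          invFun := fun z => ⟨z, hex z⟩
          left_inv := fun y => rfl
          right_inv := fun z => rfl
          map_rel_iff' := Iff.rfl }
      rcases isEmpty_or_nonempty {y : V // ¬ p y} with h | h
      · have : IsEmpty V := e.symm.toEquiv.isEmpty
        rw [W_empty_type]
        exact uni_zero
      · rw [← W_congr e (fun y : {y : V // ¬ p y} => ω y) ω
          (hi.comp Subtype.val_injective) hi (fun y => rfl)]
        exact hU

end Comp

end Pool.NC86
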