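import Pool.Agent.NC86.Pf

set_option autoImplicit false

/-!
# NC86/Cross: log-concavity in the letters for totally positive sequences
-/

open Finset

namespace Pool.NC86

/-- The weights. -/
noncomputable def gw (a b m y : ℕ) : ℝ :=
  ((a + y).choose a : ℝ) * ((b + (m - y)).choose b : ℝ)

/-- The weighted sums. -/
noncomputable def Nw (a b m : ℕ) (c : ℕ → ℝ) : ℝ := ∑ y ∈ range (m + 1), gw a b m y * c y

lemma gw_pos (a b m y : ℕ) : 0 < gw a b m y := by
  unfold gw
  have h1 : 0 < (a + y).choose a := Nat.choose_pos (by omega)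
  have h2 : 0 < (b + (m - y)).choose b := Nat.choose_pos (by omega)
  have h1' : (0 : ℝ) < ((a + y).choose a : ℝ) := by exact_mod_cast h1
  have h2' : (0 : ℝ) < ((b + (m - y)).choose b : ℝ) := by exact_mod_cast h2
  exact mul_pos h1' h2'

lemma ch (a y : ℕ) : ((a : ℝ) + 1) * ((a + 1 + y).choose (a + 1) : ℝ) =
    ((a : ℝ) + 1 + y) * ((a + y).choose a : ℝ) := by
  have h := Nat.add_one_mul_choose_eq (a + y) a
  rw [show a + y + 1 = a + 1 + y by ring] at h
  have h' : ((a + 1 + y : ℕ) : ℝ) * ((a + y).choose a : ℝ) =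
      ((a + 1 + y).choose (a + 1) : ℝ) * ((a + 1 : ℕ) : ℝ) := by exact_mod_cast h
  push_cast at h'
  linarith

/-- Raising the first letter. -/
lemma gw_left (a b m y : ℕ) : ((a : ℝ) + 1) * gw (a + 1) b m y = ((a : ℝ) + 1 + y) * gw a b m y := by
  unfold gw
  rw [← mul_assoc, ch]
  ring

/-- Raising the second letter. -/
lemma gw_right {a b m y : ℕ} (hy : y ≤ m) :
    ((b : ℝ) + 1) * gw a (b + 1) m y = ((b : ℝ) + 1 + (m - y)) * gw a b m y := by
  unfold gw
  have h := ch b (m - y)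
  rw [Nat.cast_sub hy] at h
  calc ((b : ℝ) + 1) * (((a + y).choose a : ℝ) * ((b + 1 + (m - y)).choose (b + 1) : ℝ))
      = ((a + y).choose a : ℝ) * (((b : ℝ) + 1) * ((b + 1 + (m - y)).choose (b + 1) : ℝ)) := by
        ring
    _ = _ := by rw [h]; ring

lemma gw11 {a b m y : ℕ} (hy : y ≤ m) : ((a : ℝ) + 1) * ((b : ℝ) + 1) * gw (a + 1) (b + 1) m y =
    gw a b m y * (((a : ℝ) + 1 + y) * ((b : ℝ) + 1 + (m - y))) := by
  have h1 := gw_left a (b + 1) m y
  have h2 := gw_right (a := a) (b := b) hy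
  calc ((a : ℝ) + 1) * ((b : ℝ) + 1) * gw (a + 1) (b + 1) m y
      = ((b : ℝ) + 1) * (((a : ℝ) + 1) * gw (a + 1) (b + 1) m y) := by ring
    _ = ((a : ℝ) + 1 + y) * (((b : ℝ) + 1) * gw a (b + 1) m y) := by rw [h1]; ring
    _ = _ := by rw [h2]; ring

lemma gw02 {a b m y : ℕ} (hy : y ≤ m) : ((b : ℝ) + 1) * ((b : ℝ) + 2) * gw a (b + 2) m y =
    gw a b m y * (((b : ℝ) + 1 + (m - y)) * ((b : ℝ) + 2 + (m - y))) := by
  have h1 := gw_right (a := a) (b := b + 1) hy
  have h2 := gw_right (a := a) (b := b) hy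
  push_cast at h1
  rw [show b + 1 + 1 = b + 2 by ring] at h1
  calc ((b : ℝ) + 1) * ((b : ℝ) + 2) * gw a (b + 2) m y
      = ((b : ℝ) + 1) * (((b : ℝ) + 1 + 1) * gw a (b + 2) m y) := by ring
    _ = ((b : ℝ) + 2 + (m - y)) * (((b : ℝ) + 1) * gw a (b + 1) m y) := by rw [h1]; ring
    _ = _ := by rw [h2]; ring

lemma gw20 (a b m y : ℕ) : ((a : ℝ) + 1) * ((a : ℝ) + 2) * gw (a + 2) b m y =
    gw a b m y * (((a : ℝ) + 1 + y) * ((a : ℝ) + 2 + y)) := by
  have h1 := gw_left (a + 1) b m y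
  have h2 := gw_left a b m y
  push_cast at h1
  rw [show a + 1 + 1 = a + 2 by ring] at h1
  calc ((a : ℝ) + 1) * ((a : ℝ) + 2) * gw (a + 2) b m y
      = ((a : ℝ) + 1) * (((a : ℝ) + 1 + 1) * gw (a + 2) b m y) := by ring
    _ = ((a : ℝ) + 2 + y) * (((a : ℝ) + 1) * gw (a + 1) b m y) := by rw [h1]; ring
    _ = _ := by rw [h2]; ring

lemma Nw_geom (s t : ℝ) (a b m : ℕ) :
    Nw a b m (fun y => s ^ y * t ^ (m - y)) = Hg s t a b m := by
  unfold Nw Hg gw
  have h := Finset.Nat.sum_antidiagonal_eq_sum_range_succ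
    (fun i j => ((a + i).choose i : ℝ) * ((b + j).choose j : ℝ) * (s ^ i * t ^ j)) m
  rw [h]
  refine Finset.sum_congr rfl fun y _ => ?_
  rw [Nat.choose_symm_add, Nat.choose_symm_add]

/-- One crossing pattern. -/
theorem cross {c : ℕ → ℝ} (hc : Pf c) (m : ℕ) {x K : ℝ} (hx0 : 0 ≤ x) (hx1 : x ≤ 1) :
    ∃ y1 y2 : ℕ, y1 ≤ m ∧ y2 ≤ m ∧ ∀ y, y ≤ m →
      (c y - K * (x ^ y * (1 - x) ^ (m - y))) * (((y : ℝ) - y1) * ((y : ℝ) - y2)) ≤ 0 := by
  classical
  set g : ℕ → ℝ := fun y => K * (x ^ y * (1 - x) ^ (m - y)) with hg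
  have hstep : ∀ i, i < m → g (i + 1) * (1 - x) = g i * x := by
    intro i hi
    simp only [hg]
    rw [show m - i = (m - (i + 1)) + 1 by omega, pow_succ, pow_succ]
    ring
  set S : Finset ℕ := (range (m + 1)).filter (fun y => g y < c y) with hS
  rcases S.eq_empty_or_nonempty with he | hne
  · refine ⟨0, 0, Nat.zero_le _, Nat.zero_le _, fun y hy => ?_⟩
    have h1 : c y ≤ g y := by
      by_contra hcon
      have : y ∈ S := by
        rw [hS, mem_filter, mem_range]
        exact ⟨by omega, not_le.1 hcon⟩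
      rw [he] at this
      exact absurd this (Finset.notMem_empty y)
    refine mul_nonpos_of_nonpos_of_nonneg (sub_nonpos.2 h1) ?_
    push_cast
    nlinarith [sq_nonneg (y : ℝ)]
  · set y1 := S.min' hne with hy1
    set y2 := S.max' hne with hy2
    have m1 : y1 ∈ S := S.min'_mem hne
    have m2 : y2 ∈ S := S.max'_mem hne
    have m1' := m1
    have m2' := m2
    rw [hS, mem_filter, mem_range] at m1' m2'
    refine ⟨y1, y2, by omega, by omega, fun y hy => ?_⟩
    have hnot : ∀ z, z ≤ m → z ∉ S → c z ≤ g z := by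
      intro z hz hzS
      by_contra hcon
      exact hzS (by rw [hS, mem_filter, mem_range]; exact ⟨by omega, not_le.1 hcon⟩)
    rcases lt_or_ge y y1 with h | h
    · have h1 : y ∉ S := fun hyS => absurd (S.min'_le y hyS) (not_le.2 h)
      have h2 := hnot y hy h1
      have h3 : y1 ≤ y2 := S.min'_le y2 m2
      have h4 : (y : ℝ) ≤ y1 := by exact_mod_cast h.le
      have h5 : (y1 : ℝ) ≤ y2 := by exact_mod_cast h3
      exact mul_nonpos_of_nonpos_of_nonneg (sub_nonpos.2 h2)
        (mul_nonneg_of_nonpos_of_nonpos (by linarith) (by linarith))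
    · rcases lt_or_ge y2 y with h' | h'
      · have h1 : y ∉ S := fun hyS => absurd (S.le_max' y hyS) (not_le.2 h')
        have h2 := hnot y hy h1
        have h3 : (y1 : ℝ) ≤ y := by exact_mod_cast h
        have h4 : (y2 : ℝ) ≤ y := by exact_mod_cast h'.le
        exact mul_nonpos_of_nonpos_of_nonneg (sub_nonpos.2 h2)
          (mul_nonneg (by linarith) (by linarith))
      · have h3 : (y1 : ℝ) ≤ y := by exact_mod_cast h
        have h4 : (y : ℝ) ≤ y2 := by exact_mod_cast h'
        refine mul_nonpos_of_nonneg_of_nonpos (sub_nonneg.2 ?_)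
          (mul_nonpos_of_nonneg_of_nonpos (by linarith) (by linarith))
        show g y ≤ c y
        rcases h.eq_or_lt with h | h
        · rw [← h]; exact m1'.2.le
        rcases h'.eq_or_lt with h' | h'
        · rw [h']; exact m2'.2.le
        by_contra hcon
        rw [not_le] at hcon
        have hgy : 0 < g y := lt_of_le_of_lt (hc.1 y) hcon
        have hx : 0 < x := by
          rcases hx0.eq_or_lt with h0 | h0
          · exfalso
            simp only [hg] at hgy
            rw [← h0, zero_pow (by omega), zero_mul, mul_zero] at hgy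
            exact lt_irrefl _ hgy
          · exact h0
        have ht : 0 < 1 - x := by
          rcases hx1.eq_or_lt with h0 | h0
          · exfalso
            simp only [hg] at hgy
            rw [h0, sub_self, zero_pow (by omega), mul_zero, mul_zero] at hgy
            exact lt_irrefl _ hgy
          · linarith
        -- a descending step
        obtain ⟨i, hi1, hi2, hi3⟩ : ∃ i, y1 ≤ i ∧ i < y ∧ c (i + 1) * (1 - x) < c i * x := by
          by_contra hno
          push Not at hno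
          have : ∀ i, y1 ≤ i → i ≤ y → g i < c i := by
            intro i hi
            induction i, hi using Nat.le_induction with
            | base => intro _; exact m1'.2
            | succ i hi ih =>
              intro hiy
              have e1 := hno i hi (by omega)
              have e2 := ih (by omega)
              have e3 := hstep i (by omega)
              have e4 : g i * x < c i * x := mul_lt_mul_of_pos_right e2 hx
              rw [← e3] at e4
              exact lt_of_mul_lt_mul_right (e4.trans_le e1) ht.le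
          exact absurd (this y h.le le_rfl) (not_lt.2 hcon.le)
        have hci : 0 < c i := by
          have : 0 ≤ c (i + 1) * (1 - x) := mul_nonneg (hc.1 _) ht.le
          have h9 : 0 < c i * x := lt_of_le_of_lt this hi3
          exact pos_of_mul_pos_left h9 hx.le
        have hdown : ∀ l, i ≤ l → c (l + 1) * (1 - x) ≤ c l * x := by
          intro l hl
          have e1 := hc.2 i l 1 hl
          have e2 : c i * (c (l + 1) * (1 - x)) ≤ c i * (c l * x) := by
            calc c i * (c (l + 1) * (1 - x)) = c i * c (l + 1) * (1 - x) := by ring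
              _ ≤ c (i + 1) * c l * (1 - x) := mul_le_mul_of_nonneg_right e1 ht.le
              _ = c (i + 1) * (1 - x) * c l := by ring
              _ ≤ c i * x * c l := mul_le_mul_of_nonneg_right hi3.le (hc.1 l)
              _ = c i * (c l * x) := by ring
          exact le_of_mul_le_mul_left e2 hci
        have hend : ∀ l, y ≤ l → l ≤ m → c l ≤ g l := by
          intro l hl
          induction l, hl using Nat.le_induction with
          | base => intro _; exact hcon.le
          | succ l hl ih =>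
            intro hlm
            have e1 := hdown l (by omega)
            have e2 := ih (by omega)
            have e3 := hstep l (by omega)
            have e4 : c l * x ≤ g l * x := mul_le_mul_of_nonneg_right e2 hx.le
            rw [← e3] at e4
            exact le_of_mul_le_mul_right (e1.trans e4) ht
        exact absurd (hend y2 h'.le (by omega)) (not_le.2 m2'.2)

/-- The comparison. -/
theorem compare {a b m : ℕ} {c g : ℕ → ℝ} {y1 y2 : ℕ} (h1 : y1 ≤ m) (h2 : y2 ≤ m)
    (hs : ∀ y, y ≤ m → (c y - g y) * (((y : ℝ) - y1) * ((y : ℝ) - y2)) ≤ 0)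
    (e0 : Nw a (b + 2) m c = Nw a (b + 2) m g) (e2 : Nw (a + 2) b m c = Nw (a + 2) b m g) :
    Nw (a + 1) (b + 1) m g ≤ Nw (a + 1) (b + 1) m c := by
  set h : ℕ → ℝ := fun y => c y - g y with hh
  set Lam : ℝ := (a : ℝ) + b + m + 2 with hL
  set x1 : ℝ := (a : ℝ) + 1 + y1 with hx1
  set x2 : ℝ := (a : ℝ) + 1 + y2 with hx2
  set z1 : ℝ := (b : ℝ) + 1 + (m - y1) with hz1
  set z2 : ℝ := (b : ℝ) + 1 + (m - y2) with hz2
  have ha : (0 : ℝ) ≤ a := Nat.cast_nonneg _
  have hb : (0 : ℝ) ≤ b := Nat.cast_nonneg _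
  have hy1 : (0 : ℝ) ≤ y1 := Nat.cast_nonneg _
  have hy2 : (0 : ℝ) ≤ y2 := Nat.cast_nonneg _
  have hm1 : (y1 : ℝ) ≤ m := by exact_mod_cast h1
  have hm2 : (y2 : ℝ) ≤ m := by exact_mod_cast h2
  have px1 : 0 < x1 := by rw [hx1]; linarith
  have px2 : 0 < x2 := by rw [hx2]; linarith
  have pz1 : 0 < z1 := by rw [hz1]; linarith
  have pz2 : 0 < z2 := by rw [hz2]; linarith
  have s1 : z1 = Lam - x1 := by rw [hz1, hL, hx1]; ring
  have s2 : z2 = Lam - x2 := by rw [hz2, hL, hx2]; ring
  have pL : 0 < Lam := by rw [hL]; linarith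
  set κ : ℝ := (Lam + 1) * Lam - x1 * x2 - z1 * z2 with hκ
  have pκ : 0 < κ := by
    have : κ = Lam + x1 * z2 + x2 * z1 := by rw [hκ, s1, s2]; ring
    rw [this]
    positivity
  have hsum : ∀ (p q : ℕ), Nw p q m c - Nw p q m g = ∑ y ∈ range (m + 1), gw p q m y * h y := by
    intro p q
    unfold Nw
    rw [← Finset.sum_sub_distrib]
    refine Finset.sum_congr rfl fun y _ => ?_
    simp only [hh]
    ring
  have key : κ * (((a : ℝ) + 1) * ((b : ℝ) + 1) * (Nw (a + 1) (b + 1) m c - Nw (a + 1) (b + 1) m g))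
      - x1 * x2 * (((b : ℝ) + 1) * ((b : ℝ) + 2) * (Nw a (b + 2) m c - Nw a (b + 2) m g))
      - z1 * z2 * (((a : ℝ) + 1) * ((a : ℝ) + 2) * (Nw (a + 2) b m c - Nw (a + 2) b m g)) =
      ∑ y ∈ range (m + 1), - ((Lam + 1) * Lam) *
        (gw a b m y * (h y * (((y : ℝ) - y1) * ((y : ℝ) - y2)))) := by
    rw [hsum, hsum, hsum, Finset.mul_sum, Finset.mul_sum, Finset.mul_sum, Finset.mul_sum,
      Finset.mul_sum, Finset.mul_sum, ← Finset.sum_sub_distrib, ← Finset.sum_sub_distrib]
    refine Finset.sum_congr rfl fun y hy => ?_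
    rw [mem_range] at hy
    have hym : y ≤ m := by omega
    have k1 := gw11 (a := a) (b := b) hym
    have k0 := gw02 (a := a) (b := b) hym
    have k2 := gw20 a b m y
    calc κ * (((a : ℝ) + 1) * ((b : ℝ) + 1) * (gw (a + 1) (b + 1) m y * h y))
        - x1 * x2 * (((b : ℝ) + 1) * ((b : ℝ) + 2) * (gw a (b + 2) m y * h y))
        - z1 * z2 * (((a : ℝ) + 1) * ((a : ℝ) + 2) * (gw (a + 2) b m y * h y))
        = h y * (κ * (((a : ℝ) + 1) * ((b : ℝ) + 1) * gw (a + 1) (b + 1) m y)
          - x1 * x2 * (((b : ℝ) + 1) * ((b : ℝ) + 2) * gw a (b + 2) m y)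
          - z1 * z2 * (((a : ℝ) + 1) * ((a : ℝ) + 2) * gw (a + 2) b m y)) := by ring
      _ = _ := by
        rw [k1, k0, k2, hκ, hz1, hz2, hx1, hx2, hL]
        ring
  rw [e0, e2, sub_self, sub_self] at key
  simp only [mul_zero, sub_zero] at key
  have hpos : 0 ≤ ∑ y ∈ range (m + 1), - ((Lam + 1) * Lam) *
        (gw a b m y * (h y * (((y : ℝ) - y1) * ((y : ℝ) - y2)))) := by
    refine Finset.sum_nonneg fun y hy => ?_
    rw [mem_range] at hy
    have h3 := hs y (by omega)
    have h4 := mul_nonneg (gw_pos a b m y).le (neg_nonneg.2 h3)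
    have h5 : 0 ≤ (Lam + 1) * Lam := by positivity
    have h6 := mul_nonneg h5 h4
    simp only [hh]
    linarith
  rw [← key] at hpos
  have h7 : 0 < κ * (((a : ℝ) + 1) * ((b : ℝ) + 1)) := by positivity
  have h8 : 0 ≤ κ * (((a : ℝ) + 1) * ((b : ℝ) + 1)) *
      (Nw (a + 1) (b + 1) m c - Nw (a + 1) (b + 1) m g) := by linarith
  have h9 := nonneg_of_mul_nonneg_right h8 h7
  linarith

/-- Monotone ratio of the weights. -/
lemma gw_ratio {a b m y y' : ℕ} (hyy : y ≤ y') (hy' : y' ≤ m) :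
    gw (a + 2) b m y * gw a (b + 2) m y' ≤ gw a (b + 2) m y * gw (a + 2) b m y' := by
  have ha : (0 : ℝ) ≤ a := Nat.cast_nonneg _
  have hb : (0 : ℝ) ≤ b := Nat.cast_nonneg _
  have h1 : (0 : ℝ) ≤ y := Nat.cast_nonneg _
  have h2 : (y : ℝ) ≤ y' := by exact_mod_cast hyy
  have h3 : (y' : ℝ) ≤ m := by exact_mod_cast hy'
  have hP : 0 < ((a : ℝ) + 1) * ((a : ℝ) + 2) * (((b : ℝ) + 1) * ((b : ℝ) + 2)) := by positivity
  refine le_of_mul_le_mul_left ?_ hP
  have k2 := gw20 a b m y
  have k0 := gw02 (a := a) (b := b) (m := m) (y := y) (by omega)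
  have k2' := gw20 a b m y'
  have k0' := gw02 (a := a) (b := b) (m := m) (y := y') (by omega)
  have hw := gw_pos a b m y
  have hw' := gw_pos a b m y'
  have A : ((a : ℝ) + 1 + y) * ((a : ℝ) + 2 + y) ≤ ((a : ℝ) + 1 + y') * ((a : ℝ) + 2 + y') :=
    mul_le_mul (by linarith) (by linarith) (by positivity) (by positivity)
  have B : ((b : ℝ) + 1 + (m - y')) * ((b : ℝ) + 2 + (m - y')) ≤
      ((b : ℝ) + 1 + (m - y)) * ((b : ℝ) + 2 + (m - y)) :=
    mul_le_mul (by linarith) (by linarith) (by linarith) (by linarith)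
  have Bn : 0 ≤ ((b : ℝ) + 1 + (m - y')) * ((b : ℝ) + 2 + (m - y')) :=
    mul_nonneg (by linarith) (by linarith)
  have An : 0 ≤ ((a : ℝ) + 1 + y') * ((a : ℝ) + 2 + y') := by positivity
  have C := mul_le_mul A B Bn An
  have D := mul_le_mul_of_nonneg_left C (mul_nonneg hw.le hw'.le)
  calc ((a : ℝ) + 1) * ((a : ℝ) + 2) * (((b : ℝ) + 1) * ((b : ℝ) + 2)) *
        (gw (a + 2) b m y * gw a (b + 2) m y')
      = (((a : ℝ) + 1) * ((a : ℝ) + 2) * gw (a + 2) b m y) *
        (((b : ℝ) + 1) * ((b : ℝ) + 2) * gw a (b + 2) m y') := by ring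
    _ = gw a b m y * gw a b m y' * (((a : ℝ) + 1 + y) * ((a : ℝ) + 2 + y) *
        (((b : ℝ) + 1 + (m - y')) * ((b : ℝ) + 2 + (m - y')))) := by rw [k2, k0']; ring
    _ ≤ gw a b m y * gw a b m y' * (((a : ℝ) + 1 + y') * ((a : ℝ) + 2 + y') *
        (((b : ℝ) + 1 + (m - y)) * ((b : ℝ) + 2 + (m - y)))) := D
    _ = (((a : ℝ) + 1) * ((a : ℝ) + 2) * gw (a + 2) b m y') *
        (((b : ℝ) + 1) * ((b : ℝ) + 2) * gw a (b + 2) m y) := by rw [k2', k0]; ring
    _ = _ := by ring

/-- Log-concavity in the letters. -/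
theorem Nw_lc {c : ℕ → ℝ} (hc : Pf c) (a b m : ℕ) :
    Nw a (b + 2) m c * Nw (a + 2) b m c ≤ Nw (a + 1) (b + 1) m c ^ 2 := by
  set G : ℝ → ℕ → ℝ := fun x y => x ^ y * (1 - x) ^ (m - y) with hG
  have hGH : ∀ x p q, Nw p q m (G x) = Hg x (1 - x) p q m := fun x p q => Nw_geom x (1 - x) p q m
  have hcn : ∀ p q, 0 ≤ Nw p q m c := fun p q =>
    Finset.sum_nonneg fun y _ => mul_nonneg (gw_pos p q m y).le (hc.1 y)
  have hcont : ∀ p q, Continuous fun x => Nw p q m (G x) := by
    intro p q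
    unfold Nw
    simp only [hG]
    fun_prop
  set E : ℝ → ℝ := fun x => Nw (a + 2) b m (G x) * Nw a (b + 2) m c -
    Nw a (b + 2) m (G x) * Nw (a + 2) b m c with hE
  have hEc : Continuous E := by
    simp only [hE]
    exact ((hcont _ _).mul continuous_const).sub ((hcont _ _).mul continuous_const)
  have g0 : ∀ p q, Nw p q m (G 0) = gw p q m 0 := by
    intro p q
    unfold Nw
    rw [Finset.sum_eq_single 0]
    · simp [hG]
    · intro y _ hy
      simp [hG, hy]
    · intro h
      exact absurd (mem_range.2 (Nat.succ_pos m)) h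
  have g1 : ∀ p q, Nw p q m (G 1) = gw p q m m := by
    intro p q
    unfold Nw
    rw [Finset.sum_eq_single m]
    · simp [hG]
    · intro y hy hym
      rw [mem_range] at hy
      have : m - y ≠ 0 := by omega
      simp [hG, this]
    · intro h
      exact absurd (mem_range.2 (Nat.lt_succ_self m)) h
  have hE0 : E 0 ≤ 0 := by
    simp only [hE]
    rw [g0, g0, sub_nonpos]
    unfold Nw
    rw [Finset.mul_sum, Finset.mul_sum]
    refine Finset.sum_le_sum fun y hy => ?_
    rw [mem_range] at hy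
    have h := gw_ratio (a := a) (b := b) (m := m) (Nat.zero_le y) (by omega)
    have h' := mul_le_mul_of_nonneg_right h (hc.1 y)
    linarith
  have hE1 : 0 ≤ E 1 := by
    simp only [hE]
    rw [g1, g1, sub_nonneg]
    unfold Nw
    rw [Finset.mul_sum, Finset.mul_sum]
    refine Finset.sum_le_sum fun y hy => ?_
    rw [mem_range] at hy
    have h := gw_ratio (a := a) (b := b) (m := m) (y := y) (y' := m) (by omega) le_rfl
    have h' := mul_le_mul_of_nonneg_right h (hc.1 y)
    linarith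
  obtain ⟨x, ⟨hx0, hx1⟩, hx⟩ : ∃ x ∈ Set.Icc (0 : ℝ) 1, E x = 0 :=
    intermediate_value_Icc (zero_le_one) hEc.continuousOn ⟨hE0, hE1⟩
  have hGn : ∀ y, 0 ≤ G x y := fun y => mul_nonneg (pow_nonneg hx0 _) (pow_nonneg (by linarith) _)
  have hpos : 0 < Nw a (b + 2) m (G x) := by
    unfold Nw
    rcases lt_or_ge 0 x with h | h
    · refine Finset.sum_pos' (fun y _ => mul_nonneg (gw_pos _ _ _ _).le (hGn y))
        ⟨m, mem_range.2 (Nat.lt_succ_self m), mul_pos (gw_pos _ _ _ _) ?_⟩
      simp only [hG, Nat.sub_self, pow_zero, mul_one]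
      positivity
    · have hx' : x = 0 := le_antisymm h hx0
      refine Finset.sum_pos' (fun y _ => mul_nonneg (gw_pos _ _ _ _).le (hGn y))
        ⟨0, mem_range.2 (Nat.succ_pos m), mul_pos (gw_pos _ _ _ _) ?_⟩
      simp [hG, hx']
  set K : ℝ := Nw a (b + 2) m c / Nw a (b + 2) m (G x) with hK
  have hK0 : 0 ≤ K := div_nonneg (hcn _ _) hpos.le
  have hNK : ∀ p q, Nw p q m (fun y => K * (x ^ y * (1 - x) ^ (m - y))) =
      K * Hg x (1 - x) p q m := by
    intro p q
    rw [← hGH]
    unfold Nw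
    rw [Finset.mul_sum]
    refine Finset.sum_congr rfl fun y _ => ?_
    simp only [hG]
    ring
  have e0 : Nw a (b + 2) m c = Nw a (b + 2) m (fun y => K * (x ^ y * (1 - x) ^ (m - y))) := by
    rw [hNK, ← hGH, hK, div_mul_cancel₀ _ hpos.ne']
  have e2 : Nw (a + 2) b m c = Nw (a + 2) b m (fun y => K * (x ^ y * (1 - x) ^ (m - y))) := by
    rw [hNK, ← hGH, hK, div_mul_eq_mul_div, eq_div_iff hpos.ne']
    simp only [hE] at hx
    linarith
  obtain ⟨y1, y2, h1, h2, hs⟩ := cross (K := K) hc m hx0 hx1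
  have hcmp := compare h1 h2 hs e0 e2
  rw [hNK] at hcmp e0 e2
  have hH := Hg_lc hx0 (sub_nonneg.2 hx1) a b m
  have hHn : 0 ≤ Hg x (1 - x) (a + 1) (b + 1) m := (Pf_Hg hx0 (sub_nonneg.2 hx1) _ _).1 m
  rw [e0, e2]
  calc K * Hg x (1 - x) a (b + 2) m * (K * Hg x (1 - x) (a + 2) b m)
      = K ^ 2 * (Hg x (1 - x) a (b + 2) m * Hg x (1 - x) (a + 2) b m) := by ring
    _ ≤ K ^ 2 * Hg x (1 - x) (a + 1) (b + 1) m ^ 2 := mul_le_mul_of_nonneg_left hH (sq_nonneg K)
    _ = (K * Hg x (1 - x) (a + 1) (b + 1) m) ^ 2 := by ring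
    _ ≤ Nw (a + 1) (b + 1) m c ^ 2 := pow_le_pow_left₀ (mul_nonneg hK0 hHn) hcmp 2

end Pool.NC86
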