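import Pool.Agent.NC86.Tptwo
import Pool.Agent.NC86.Chain

set_option autoImplicit false

/-!
# NC86/Disj: disjoint unions with a poset whose polynomial is log-concave
-/

open Polynomial Finset

namespace Pool.NC86

open Pool.GT34 Pool.UC86 Pool.DU31

/-- Log-concave coefficients without gaps. -/
def Lc (h : ℕ[X]) : Prop :=
  (∀ k, h.coeff k * h.coeff (k + 2) ≤ h.coeff (k + 1) ^ 2) ∧
    ∀ k, h.coeff (k + 1) ≠ 0 → h.coeff k ≠ 0

theorem Lc.pf {h : ℕ[X]} (hL : Lc h) : Pf (fun k => (h.coeff k : ℝ)) := Pf_of_lc hL.1 hL.2

section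

variable {V : Type} [PartialOrder V] [Fintype V]

/-- The polynomial does not depend on the natural labelling. -/
theorem W_indep (ω ω' : V → ℤ) (hi : Function.Injective ω) (hi' : Function.Injective ω')
    (hω : ∀ x y, x < y → ω x < ω y) (hω' : ∀ x y, x < y → ω' x < ω' y) :
    W (Dl ω) (Finset.univ : Finset V) = W (Dl ω') (Finset.univ : Finset V) := by
  rcases isEmpty_or_nonempty V with h | h
  · rw [W_empty_type, W_empty_type]
  · apply ev_inj (p := Fintype.card V)
    intro N
    rw [← Om_eq_ev ω hi N, ← Om_eq_ev ω' hi' N, Om_natural _ hω, Om_natural _ hω']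

/-- Dimension at most two. -/
theorem lc_of_dim (ω : V → ℤ) (hi : Function.Injective ω) (hω : ∀ x y, x < y → ω x < ω y)
    {β γ : Type*} [LinearOrder β] [LinearOrder γ] (r : V → β) (s : V → γ)
    (h : ∀ x y : V, x ≤ y ↔ r x ≤ r y ∧ s x ≤ s y) : Lc (W (Dl ω) (Finset.univ : Finset V)) := by
  classical
  rcases isEmpty_or_nonempty V with hemp | hne
  · rw [W_empty_type]
    exact ⟨fun k => by simp, fun k hk => by simp at hk⟩
  obtain ⟨n, f, hf⟩ := exists_natural V
  have hn : n = Fintype.card V := by rw [Fintype.card_congr f, Fintype.card_fin]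
  subst hn
  have hinj : Function.Injective (fun x => ((f x : ℕ) : ℤ)) :=
    fun x y h => f.injective (Fin.ext (Nat.cast_injective h))
  have hnat : ∀ x y : V, x < y → ((f x : ℕ) : ℤ) < ((f y : ℕ) : ℤ) :=
    fun x y h => Nat.cast_lt.2 (Fin.lt_def.1 (hf x y h))
  rw [W_indep ω _ hi hinj hω hnat]
  have e : ∀ k, (W (Dl (fun x => ((f x : ℕ) : ℤ))) (Finset.univ : Finset V)).coeff k =
      wnum V f k := fun k => (link f k).symm
  refine ⟨fun k => ?_, fun k => ?_⟩
  · rw [e, e, e]
    by_cases hk : k + 2 ≤ Fintype.card V
    · obtain ⟨l, hl⟩ := Nat.exists_eq_add_of_le hk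
      have h1 := (dim_two f hf r s h).2 k l (by omega)
      have h2 : (k + 1) * (l + 1) * (wnum V f k * wnum V f (k + 2)) ≤
          (k + 2) * (l + 2) * (wnum V f k * wnum V f (k + 2)) :=
        Nat.mul_le_mul_right _ (Nat.mul_le_mul (by omega) (by omega))
      exact Nat.le_of_mul_le_mul_left (h2.trans h1) (Nat.mul_pos (by omega) (by omega))
    · rw [wnum_high f (k + 2) (by omega)]
      simp
  · rw [e, e]
    exact wnum_gap hf k

theorem uni_of_lc_W {h : ℕ[X]} (hL : Lc h) : Uni h :=
  unimodal_of_lc (w := fun k => h.coeff k) (n := h.natDegree) hL.1 hL.2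
    (fun _ hk => coeff_eq_zero_of_natDegree_lt hk)

/-- Disjoint union with a log-concave part. -/
theorem uni_disj (p : V → Prop) [Fintype {x // p x}]
    [Fintype {x // ¬ p x}] (hp : ∀ x y, p x → ¬ p y → ¬ x < y ∧ ¬ y < x)
    (ω : V → ℤ) (hi : Function.Injective ω) (_hω : ∀ x y, x < y → ω x < ω y)
    (hL : Lc (W (Dl (fun x : {x // p x} => ω x)) Finset.univ))
    (hU : Uni (W (Dl (fun x : {x // ¬ p x} => ω x)) Finset.univ)) :
    Uni (W (Dl ω) (Finset.univ : Finset V)) := by
  classical
  rcases isEmpty_or_nonempty {x // ¬ p x} with h | h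
  · have hall : ∀ x, p x := fun x => by
      by_contra hx
      exact h.false ⟨x, hx⟩
    let e : {x // p x} ≃o V :=
      { toFun := fun y => y.1
        invFun := fun z => ⟨z, hall z⟩
        left_inv := fun y => rfl
        right_inv := fun z => rfl
        map_rel_iff' := Iff.rfl }
    rcases isEmpty_or_nonempty {x // p x} with h' | h'
    · have : IsEmpty V := e.symm.toEquiv.isEmpty
      rw [W_empty_type]
      exact uni_zero
    · rw [← W_congr e (fun y : {x // p x} => ω y) ω (hi.comp Subtype.val_injective) hi
        (fun y => rfl)]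
      exact uni_of_lc_W hL
  · rcases isEmpty_or_nonempty {x // p x} with h' | h'
    · have hall : ∀ x, ¬ p x := fun x hx => h'.false ⟨x, hx⟩
      let e : {x // ¬ p x} ≃o V :=
        { toFun := fun y => y.1
          invFun := fun z => ⟨z, hall z⟩
          left_inv := fun y => rfl
          right_inv := fun z => rfl
          map_rel_iff' := Iff.rfl }
      rw [← W_congr e (fun y : {x // ¬ p x} => ω y) ω (hi.comp Subtype.val_injective) hi
        (fun y => rfl)]
      exact hU
    · have : Nonempty V := ⟨(Classical.arbitrary {x // p x}).1⟩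
      set n := Fintype.card {x // ¬ p x} with hn
      set q := Fintype.card {x // p x} with hq
      have hcard : Fintype.card V = n + q := by
        have := Fintype.card_subtype_compl p
        have h2 := Fintype.card_subtype_le p
        have e1 : Fintype.card {x // ¬ p x} = Fintype.card V - Fintype.card {x // p x} := by
          rw [← this]
        omega
      have hiQ : Function.Injective (fun x : {x // ¬ p x} => ω x) :=
        hi.comp Subtype.val_injective
      have hiK : Function.Injective (fun x : {x // p x} => ω x) := hi.comp Subtype.val_injective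
      set w := W (Dl (fun x : {x // ¬ p x} => ω x)) Finset.univ with hw
      set c := W (Dl (fun x : {x // p x} => ω x)) Finset.univ with hc
      have hw0 : ∀ k, n < k → w.coeff k = 0 := fun k hk =>
        coeff_W_eq_zero _ _ (by rw [Finset.card_univ]; omega) Finset.univ_nonempty
      have hc0 : ∀ k, q < k → c.coeff k = 0 := fun k hk =>
        coeff_W_eq_zero _ _ (by rw [Finset.card_univ]; omega) Finset.univ_nonempty
      have key : prodP n q n q w c = W (Dl ω) (Finset.univ : Finset V) := by
        apply ev_inj (p := n + q)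
        intro N
        rw [ev_prodP le_rfl le_rfl hw0 hc0, ← Om_eq_ev _ hiQ N, ← Om_eq_ev _ hiK N, ← hcard,
          ← Om_eq_ev ω hi N, Om_split p hp, mul_comm]
      exact uni_had (w := fun k => w.coeff k) (c := fun k => c.coeff k) (n := n) (q := q) (s := q)
        le_rfl hw0 hU hL.1 hL.2 hc0
        (h := fun k => (W (Dl ω) (Finset.univ : Finset V)).coeff k)
        (fun k => by rw [← key, coeff_prodP le_rfl le_rfl]) (N := n + q)
        (fun k hk => coeff_W_eq_zero _ _ (by rw [Finset.card_univ]; omega) Finset.univ_nonempty)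

end

end Pool.NC86
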