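import Pool.Agent.NC86.Chain
import Pool.Agent.HN34.Cor3

set_option autoImplicit false

/-!
# NC86/Final: the gauge theorem with all chain components exempt
-/

open Polynomial

namespace Pool.NC86

open Pool.GT34 Pool.HN34

section Cones

variable {V : Type} [Fintype V] [PartialOrder V] [Nonempty V] (ω : V → ℤ)
  (hi : Function.Injective ω) (hω : ∀ x y, x < y → ω x < ω y)

include hi hω

theorem up_cone' (T : ℕ)
    (hκ : (∃ κ : V → ℕ, GaugeI3' κ T) ∨ ∃ κ : Vᵒᵈ → ℕ, GaugeI3' κ T) :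
    W (Dl ω) (Finset.univ : Finset V) ∈ Up ((Fintype.card V : ℤ) - 1 - T) := by
  rcases hκ with ⟨κ, hκ⟩ | ⟨κ, hκ⟩
  · exact main_I3' hopCone _ V rfl _ hi hω κ T hκ
  · have : Nonempty Vᵒᵈ := ‹Nonempty V›
    rw [← W_dual _ hi hω]
    exact main_I3' hopCone _ Vᵒᵈ (Fintype.card_orderDual V) _ (dl_injective hi)
      (dl_natural hω) κ T hκ

theorem down_cone' (T : ℕ)
    (hμ : (∃ μ : V → ℕ, GaugeD3 μ T) ∨ ∃ μ : Vᵒᵈ → ℕ, GaugeD3 μ T) :
    W (Dl ω) (Finset.univ : Finset V) ∈ Lo ((Fintype.card V : ℤ) + 1 - T) := by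
  rcases hμ with ⟨μ, hμ⟩ | ⟨μ, hμ⟩
  · exact main_D3 hopCone _ hi hω hμ
  · have : Nonempty Vᵒᵈ := ‹Nonempty V›
    rw [← W_dual _ hi hω]
    have h := main_D3 hopCone _ (dl_injective hi) (dl_natural hω) hμ
    rw [Fintype.card_orderDual] at h
    exact h

/-- The gauge theorem for the polynomial `W`. -/
theorem uni_of_gauges (T T' : ℕ)
    (hκ : (∃ κ : V → ℕ, GaugeI3' κ T) ∨ ∃ κ : Vᵒᵈ → ℕ, GaugeI3' κ T)
    (hμ : (∃ μ : V → ℕ, GaugeD3 μ T') ∨ ∃ μ : Vᵒᵈ → ℕ, GaugeD3 μ T')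
    (hT : T ≤ T' + 1 ∨ (T = T' + 2 ∧ Even (Fintype.card V + T))) :
    Uni (W (Dl ω) (Finset.univ : Finset V)) := by
  have h1 := up_cone' ω hi hω T hκ
  have h2 := down_cone' ω hi hω T' hμ
  exact unimodal_of_cones h1 h2 (by
    rcases hT with hT | ⟨hT, r, hr⟩
    · left; omega
    · right
      refine ⟨by omega, ⟨(r : ℤ) - 1 - T, ?_⟩⟩
      omega)

end Cones

/-- From the rest of the poset to the whole poset, for the numbers `wnum`. -/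
theorem wnum_of_rest (α : Type) [Fintype α] [PartialOrder α] (f : α ≃ Fin (Fintype.card α))
    (hf : ∀ x y : α, x < y → f x < f y) (C : Set α)
    (h1 : ∀ x ∈ C, ∀ y, (x ≤ y ∨ y ≤ x) → y ∈ C)
    (h2 : ∀ x ∈ C, ∀ y z, (x ≤ y ∨ y ≤ x) → (y ≤ z ∨ z ≤ y) → (x ≤ z ∨ z ≤ x))
    [Fintype {x // x ∉ C}]
    (hU : Uni (W (Dl (fun x : {x // x ∉ C} => ((f x : ℕ) : ℤ))) Finset.univ)) :
    ∃ m : ℕ, ∀ k : ℕ, (k < m → wnum α f k ≤ wnum α f (k + 1)) ∧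
      (m ≤ k → wnum α f (k + 1) ≤ wnum α f k) := by
  rcases isEmpty_or_nonempty α with h | h
  · refine ⟨0, fun k => ⟨fun hk => by omega, fun _ => ?_⟩⟩
    rw [wnum_succ_of_isEmpty α f h]
    exact Nat.zero_le _
  · have hinj : Function.Injective (fun x => ((f x : ℕ) : ℤ)) :=
      fun x y h => f.injective (Fin.ext (Nat.cast_injective h))
    have hnat : ∀ x y : α, x < y → ((f x : ℕ) : ℤ) < ((f y : ℕ) : ℤ) :=
      fun x y h => Nat.cast_lt.2 (Fin.lt_def.1 (hf x y h))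
    obtain ⟨m, hm⟩ := uni_of_exempt _ α (fun x => x ∈ C) rfl
      (fun x y hx hxy => h1 x hx y hxy) (fun x y z hx h3 h4 => h2 x hx y z h3 h4) _ hinj hnat hU
    refine ⟨m, fun k => ?_⟩
    have e : ∀ k, wnum α f k =
        (W (Dl (fun x => ((f x : ℕ) : ℤ))) (Finset.univ : Finset α)).coeff k :=
      fun k => link f k
    rw [e, e]
    exact hm k

/-- The gauge theorem; the components in `C` are chains and are exempt. -/
theorem gauge_chain (α : Type) [Fintype α] [PartialOrder α] (f : α ≃ Fin (Fintype.card α))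
    (hf : ∀ x y : α, x < y → f x < f y) (C : Set α)
    (h1 : ∀ x ∈ C, ∀ y, (x ≤ y ∨ y ≤ x) → y ∈ C)
    (h2 : ∀ x ∈ C, ∀ y z, (x ≤ y ∨ y ≤ x) → (y ≤ z ∨ z ≤ y) → (x ≤ z ∨ z ≤ x)) (T T' : ℕ)
    (hκ : (∃ κ : {x // x ∉ C} → ℕ, GaugeI3' κ T) ∨ ∃ κ : {x // x ∉ C}ᵒᵈ → ℕ, GaugeI3' κ T)
    (hμ : (∃ μ : {x // x ∉ C} → ℕ, GaugeD3 μ T') ∨ ∃ μ : {x // x ∉ C}ᵒᵈ → ℕ, GaugeD3 μ T')
    (hT : T ≤ T' + 1 ∨ (T = T' + 2 ∧ Even (Nat.card {x // x ∉ C} + T))) :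
    ∃ m : ℕ, ∀ k : ℕ, (k < m → wnum α f k ≤ wnum α f (k + 1)) ∧
      (m ≤ k → wnum α f (k + 1) ≤ wnum α f k) := by
  classical
  refine wnum_of_rest α f hf C h1 h2 ?_
  rcases isEmpty_or_nonempty {x // x ∉ C} with h | h
  · rw [W_empty_type]
    exact uni_zero
  · rw [Nat.card_eq_fintype_card] at hT
    exact uni_of_gauges _ (fun x y h => Subtype.ext (f.injective (Fin.ext (Nat.cast_injective h))))
      (fun x y h => Nat.cast_lt.2 (Fin.lt_def.1 (hf x y h))) T T' hκ hμ hT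

section Families

variable (α : Type) [Fintype α] [PartialOrder α] (f : α ≃ Fin (Fintype.card α))
  (hf : ∀ x y : α, x < y → f x < f y) (C : Set α)
  (h1 : ∀ x ∈ C, ∀ y, (x ≤ y ∨ y ≤ x) → y ∈ C)
  (h2 : ∀ x ∈ C, ∀ y z, (x ≤ y ∨ y ≤ x) → (y ≤ z ∨ z ≤ y) → (x ≤ z ∨ z ≤ x))

include hf h1 h2

/-- No five-element chain outside the chain components. -/
theorem noFive_chain
    (h5 : ∀ a b c d e : {x // x ∉ C}, a < b → b < c → c < d → ¬ d < e) :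
    ∃ m : ℕ, ∀ k : ℕ, (k < m → wnum α f k ≤ wnum α f (k + 1)) ∧
      (m ≤ k → wnum α f (k + 1) ≤ wnum α f k) :=
  gauge_chain α f hf C h1 h2 3 2 (Or.inl ⟨_, gaugeI3_noFive h5⟩)
    (Or.inl ⟨_, GaugeD3.of_old gaugeD_const⟩) (Or.inl (by omega))

/-- Outside the chain components all maximal chains have `a` or `a + 1` elements. -/
theorem twoLengths_chain (a : ℕ)
    (hB : ∀ s : Finset {x // x ∉ C}, IsMaxChain (· ≤ ·) (s : Set {x // x ∉ C}) →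
      s.card = a ∨ s.card = a + 1) :
    ∃ m : ℕ, ∀ k : ℕ, (k < m → wnum α f k ≤ wnum α f (k + 1)) ∧
      (m ≤ k → wnum α f (k + 1) ≤ wnum α f k) := by
  classical
  exact gauge_chain α f hf C h1 h2 a (a + 1) (Or.inl ⟨_, GaugeI3'.of_old (gaugeI_two hB)⟩)
    (Or.inl ⟨_, GaugeD3.of_old (gaugeD_two hB)⟩) (Or.inl (by omega))

end Families

end Pool.NC86
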