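import Pool.Agent.NC86.Steps
import Pool.Agent.NC86.Final
import Pool.Agent.HN34.Ord
import Pool.Agent.HN34.Both

set_option autoImplicit false

/-!
# NC86/Levels: the gauge theorem with harmless pieces
-/

open Polynomial

namespace Pool.NC86

open Pool.GT34 Pool.HN34 Pool.DU31 Pool.UC86

theorem ordStep : OrdStep := fun _ _ _ p _ _ hp ω hi hω hL hU =>
  uni_ord p hp ω hi hω hL.pf hU

/-- A natural labelling with log-concave numbers. -/
theorem lc_of_numbers {V : Type} [PartialOrder V] [Fintype V] {n : ℕ} (g : V ≃ Fin n)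
    (hg : ∀ x y : V, x < y → g x < g y)
    (h : ∀ k, wN g k * wN g (k + 2) ≤ wN g (k + 1) ^ 2) (ω : V → ℤ) (hi : Function.Injective ω)
    (hω : ∀ x y, x < y → ω x < ω y) : Lc (W (Dl ω) (Finset.univ : Finset V)) := by
  classical
  rcases isEmpty_or_nonempty V with hemp | hne
  · rw [W_empty_type]
    exact ⟨fun k => by simp, fun k hk => by simp at hk⟩
  have hn : n = Fintype.card V := by rw [Fintype.card_congr g, Fintype.card_fin]
  subst hn
  have hinj : Function.Injective (fun x => ((g x : ℕ) : ℤ)) :=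
    fun x y h => g.injective (Fin.ext (Nat.cast_injective h))
  have hnat : ∀ x y : V, x < y → ((g x : ℕ) : ℤ) < ((g y : ℕ) : ℤ) :=
    fun x y h => Nat.cast_lt.2 (Fin.lt_def.1 (hg x y h))
  rw [W_indep ω _ hi hinj hω hnat]
  have e : ∀ k, (W (Dl (fun x => ((g x : ℕ) : ℤ))) (Finset.univ : Finset V)).coeff k =
      wnum V g k := fun k => (link g k).symm
  refine ⟨fun k => ?_, fun k => ?_⟩
  · rw [e, e, e]
    exact h k
  · rw [e, e]
    exact wnum_gap hg k

/-- A harmless piece: dimension at most two, or log-concave numbers. -/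
def Harmless (V : Type) [PartialOrder V] : Prop :=
  (∃ r s : V → ℕ, ∀ x y : V, x ≤ y ↔ r x ≤ r y ∧ s x ≤ s y) ∨
    ∃ (n : ℕ) (g : V ≃ Fin n), (∀ x y : V, x < y → g x < g y) ∧
      ∀ k, wN g k * wN g (k + 2) ≤ wN g (k + 1) ^ 2

theorem Harmless.lc {V : Type} [PartialOrder V] [Fintype V] (h : Harmless V) (ω : V → ℤ)
    (hi : Function.Injective ω) (hω : ∀ x y, x < y → ω x < ω y) :
    Lc (W (Dl ω) (Finset.univ : Finset V)) := by
  rcases h with ⟨r, s, h⟩ | ⟨n, g, hg, h⟩
  · exact lc_of_dim ω hi hω r s h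
  · exact lc_of_numbers g hg h ω hi hω

theorem uni_levels' {V : Type} [PartialOrder V] [Fintype V] (lev : V → ℕ)
    (hlev : ∀ i, 0 < i → Harmless {x // lev x = i}) (hrel : ∀ i, 0 < i → Lev lev i) (ω : V → ℤ)
    (hi : Function.Injective ω) (hω : ∀ x y, x < y → ω x < ω y) [Fintype {x // lev x = 0}]
    (h0 : Uni (W (Dl (fun x : {x // lev x = 0} => ω x)) Finset.univ)) :
    Uni (W (Dl ω) (Finset.univ : Finset V)) := by
  classical
  have key : ∀ i, Uni (W (Dl (fun x : {x // lev x ≤ i} => ω x)) Finset.univ) := by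
    intro i
    induction i with
    | zero =>
      let e : {x // lev x = 0} ≃o {x // lev x ≤ 0} :=
        { toFun := fun y => ⟨y.1, y.2.le⟩
          invFun := fun z => ⟨z.1, Nat.le_zero.1 z.2⟩
          left_inv := fun y => rfl
          right_inv := fun z => rfl
          map_rel_iff' := Iff.rfl }
      exact uni_transport e (fun x : {x // lev x = 0} => ω x) _ (hi.comp Subtype.val_injective)
        (hi.comp Subtype.val_injective) (fun x => rfl) h0
    | succ i ih =>
      let p : {x // lev x ≤ i + 1} → Prop := fun x => lev x.1 = i + 1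
      have hneg : ∀ x : {x // lev x ≤ i + 1}, ¬ p x → lev x.1 ≤ i := by
        intro x hx
        have h1 := x.2
        have h2 : lev x.1 ≠ i + 1 := hx
        omega
      have hiV : Function.Injective (fun x : {x // lev x ≤ i + 1} => ω x) :=
        hi.comp Subtype.val_injective
      let e : {x // lev x ≤ i} ≃o {x : {x // lev x ≤ i + 1} // ¬ p x} :=
        { toFun := fun y => ⟨⟨y.1, y.2.trans (Nat.le_succ i)⟩, fun h => by
            have h1 : lev y.1 = i + 1 := h
            have h2 := y.2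
            omega⟩
          invFun := fun z => ⟨z.1.1, hneg z.1 z.2⟩
          left_inv := fun y => rfl
          right_inv := fun z => rfl
          map_rel_iff' := Iff.rfl }
      have hU : Uni (W (Dl (fun x : {x : {x // lev x ≤ i + 1} // ¬ p x} => ω x.1)) Finset.univ) :=
        uni_transport e (fun x : {x // lev x ≤ i} => ω x) _ (hi.comp Subtype.val_injective)
          (hiV.comp Subtype.val_injective) (fun x => rfl) ih
      let e' : {x // lev x = i + 1} ≃o {x : {x // lev x ≤ i + 1} // p x} :=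
        { toFun := fun y => ⟨⟨y.1, y.2.le⟩, y.2⟩
          invFun := fun z => ⟨z.1.1, z.2⟩
          left_inv := fun y => rfl
          right_inv := fun z => rfl
          map_rel_iff' := Iff.rfl }
      have hL : Lc (W (Dl (fun x : {x : {x // lev x ≤ i + 1} // p x} => ω x.1)) Finset.univ) := by
        have h1 := (hlev (i + 1) (Nat.succ_pos i)).lc (fun x : {x // lev x = i + 1} => ω x)
          (hi.comp Subtype.val_injective) (fun x y hxy => hω _ _ hxy)
        rcases isEmpty_or_nonempty {x // lev x = i + 1} with h2 | h2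
        · have : IsEmpty {x : {x // lev x ≤ i + 1} // p x} := e'.symm.toEquiv.isEmpty
          rw [W_empty_type]
          exact ⟨fun k => by simp, fun k hk => by simp at hk⟩
        · rw [W_congr e' (fun x : {x // lev x = i + 1} => ω x)
            (fun x : {x : {x // lev x ≤ i + 1} // p x} => ω x.1)
            (hi.comp Subtype.val_injective) (hiV.comp Subtype.val_injective)
            (fun x => rfl)] at h1
          exact h1
      rcases hrel (i + 1) (Nat.succ_pos i) with h | h | h
      · refine uni_disj p (fun x y hx hy => ?_) _ hiV (fun x y hxy => hω _ _ hxy) hL hU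
        have h1 := h y.1 x.1 (Nat.lt_succ_of_le (hneg y hy)) hx
        exact ⟨fun h2 => h1.2 (le_of_lt h2), fun h2 => h1.1 (le_of_lt h2)⟩
      · refine ordStep _ p (Or.inr fun x y hx hy => ?_) _ hiV (fun x y hxy => hω _ _ hxy) hL hU
        exact h y.1 x.1 (Nat.lt_succ_of_le (hneg y hy)) hx
      · refine ordStep _ p (Or.inl fun x y hx hy => ?_) _ hiV (fun x y hxy => hω _ _ hxy) hL hU
        exact h y.1 x.1 (Nat.lt_succ_of_le (hneg y hy)) hx
  obtain ⟨N, hN⟩ : ∃ N, ∀ x, lev x ≤ N :=
    ⟨Finset.univ.sup lev, fun x => Finset.le_sup (Finset.mem_univ x)⟩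
  let e : {x // lev x ≤ N} ≃o V :=
    { toFun := fun y => y.1
      invFun := fun z => ⟨z, hN z⟩
      left_inv := fun y => rfl
      right_inv := fun z => rfl
      map_rel_iff' := Iff.rfl }
  exact uni_transport e _ ω (hi.comp Subtype.val_injective) hi (fun x => rfl) (key N)

/-- Unimodality with harmless pieces, for the numbers `wnum`. -/
theorem wnum_levels (α : Type) [Fintype α] [PartialOrder α] (f : α ≃ Fin (Fintype.card α))
    (hf : ∀ x y : α, x < y → f x < f y) (lev : α → ℕ)
    (hlev : ∀ i, 0 < i → Harmless {x // lev x = i}) (hrel : ∀ i, 0 < i → Lev lev i)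
    [Fintype {x // lev x = 0}]
    (h0 : Uni (W (Dl (fun x : {x // lev x = 0} => ((f x : ℕ) : ℤ))) Finset.univ)) :
    ∃ m : ℕ, ∀ k : ℕ, (k < m → wnum α f k ≤ wnum α f (k + 1)) ∧
      (m ≤ k → wnum α f (k + 1) ≤ wnum α f k) := by
  classical
  rcases isEmpty_or_nonempty α with h | h
  · refine ⟨0, fun k => ⟨fun hk => by omega, fun _ => ?_⟩⟩
    rw [wnum_succ_of_isEmpty α f h]
    exact Nat.zero_le _
  · have hinj : Function.Injective (fun x => ((f x : ℕ) : ℤ)) :=
      fun x y h => f.injective (Fin.ext (Nat.cast_injective h))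
    have hnat : ∀ x y : α, x < y → ((f x : ℕ) : ℤ) < ((f y : ℕ) : ℤ) :=
      fun x y h => Nat.cast_lt.2 (Fin.lt_def.1 (hf x y h))
    obtain ⟨m, hm⟩ := uni_levels' lev hlev hrel _ hinj hnat h0
    refine ⟨m, fun k => ?_⟩
    have e : ∀ k, wnum α f k =
        (W (Dl (fun x => ((f x : ℕ) : ℤ))) (Finset.univ : Finset α)).coeff k :=
      fun k => link f k
    rw [e, e]
    exact hm k

/-- The gauge theorem with harmless pieces. -/
theorem gauge_levels (α : Type) [Fintype α] [PartialOrder α]
    (f : α ≃ Fin (Fintype.card α)) (hf : ∀ x y : α, x < y → f x < f y) (lev : α → ℕ)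
    (hlev : ∀ i, 0 < i → Harmless {x // lev x = i}) (hrel : ∀ i, 0 < i → Lev lev i) (T T' : ℕ)
    (hκ : ∃ (κ : {x // lev x = 0} → ℤ) (e : ℤ), StG κ T e)
    (hμ : ∃ (μ : {x // lev x = 0} → ℤ) (e : ℤ), FlG μ T' e)
    (hT : T ≤ T' + 1 ∨ (T = T' + 2 ∧ Even (Nat.card {x // lev x = 0} + T))) :
    ∃ m : ℕ, ∀ k : ℕ, (k < m → wnum α f k ≤ wnum α f (k + 1)) ∧
      (m ≤ k → wnum α f (k + 1) ≤ wnum α f k) := by
  classical
  refine wnum_levels α f hf lev hlev hrel ?_
  rcases isEmpty_or_nonempty {x // lev x = 0} with h | h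
  · rw [W_empty_type]
    exact uni_zero
  · rw [Nat.card_eq_fintype_card] at hT
    exact uni_both _ (fun x y h => Subtype.ext (f.injective (Fin.ext (Nat.cast_injective h))))
      (fun x y h => Nat.cast_lt.2 (Fin.lt_def.1 (hf x y h))) T T' hκ hμ hT

/-- No five-element chain outside the harmless pieces. -/
theorem noFive_levels (α : Type) [Fintype α] [PartialOrder α]
    (f : α ≃ Fin (Fintype.card α)) (hf : ∀ x y : α, x < y → f x < f y) (lev : α → ℕ)
    (hlev : ∀ i, 0 < i → Harmless {x // lev x = i}) (hrel : ∀ i, 0 < i → Lev lev i)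
    (h5 : ∀ a b c d e : {x // lev x = 0}, a < b → b < c → c < d → ¬ d < e) :
    ∃ m : ℕ, ∀ k : ℕ, (k < m → wnum α f k ≤ wnum α f (k + 1)) ∧
      (m ≤ k → wnum α f (k + 1) ≤ wnum α f k) := by
  classical
  refine wnum_levels α f hf lev hlev hrel ?_
  rcases isEmpty_or_nonempty {x // lev x = 0} with h | h
  · rw [W_empty_type]
    exact uni_zero
  · exact uni_noFive _ (fun x y h => Subtype.ext (f.injective (Fin.ext (Nat.cast_injective h))))
      (fun x y h => Nat.cast_lt.2 (Fin.lt_def.1 (hf x y h))) h5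

/-- Outside the harmless pieces all maximal chains have `a` or `a + 1` elements. -/
theorem twoLengths_levels (α : Type) [Fintype α] [PartialOrder α]
    (f : α ≃ Fin (Fintype.card α)) (hf : ∀ x y : α, x < y → f x < f y) (lev : α → ℕ)
    (hlev : ∀ i, 0 < i → Harmless {x // lev x = i}) (hrel : ∀ i, 0 < i → Lev lev i) (a : ℕ)
    (hB : ∀ s : Finset {x // lev x = 0}, IsMaxChain (· ≤ ·) (s : Set {x // lev x = 0}) →
      s.card = a ∨ s.card = a + 1) :
    ∃ m : ℕ, ∀ k : ℕ, (k < m → wnum α f k ≤ wnum α f (k + 1)) ∧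
      (m ≤ k → wnum α f (k + 1) ≤ wnum α f k) := by
  classical
  refine wnum_levels α f hf lev hlev hrel ?_
  rcases isEmpty_or_nonempty {x // lev x = 0} with h | h
  · rw [W_empty_type]
    exact uni_zero
  · exact uni_of_gauges _ (fun x y h => Subtype.ext (f.injective (Fin.ext (Nat.cast_injective h))))
      (fun x y h => Nat.cast_lt.2 (Fin.lt_def.1 (hf x y h))) a (a + 1)
      (Or.inl ⟨_, GaugeI3'.of_old (gaugeI_two hB)⟩) (Or.inl ⟨_, GaugeD3.of_old (gaugeD_two hB)⟩)
      (Or.inl (by omega))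

end Pool.NC86
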