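import Mathlib

set_option autoImplicit false

/-!
# NC86/Pf: totally positive sequences of order two, and the geometric case
-/

open Finset

namespace Pool.NC86

/-- Nonnegative, log-concave, no internal zeros. -/
def Pf (u : ℕ → ℝ) : Prop :=
  (∀ i, 0 ≤ u i) ∧ ∀ i j k, i ≤ j → u i * u (j + k) ≤ u (i + k) * u j

/-- Multiplication of the generating function by `1 / (1 - s X)`. -/
def op (s : ℝ) (u : ℕ → ℝ) : ℕ → ℝ
  | 0 => u 0
  | j + 1 => u (j + 1) + s * op s u j

lemma op_nonneg {s : ℝ} (hs : 0 ≤ s) {u : ℕ → ℝ} (hu : ∀ i, 0 ≤ u i) (j : ℕ) :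
    0 ≤ op s u j := by
  induction j with
  | zero => exact hu 0
  | succ j ih => exact add_nonneg (hu _) (mul_nonneg hs ih)

lemma le_op {s : ℝ} (hs : 0 ≤ s) {u : ℕ → ℝ} (hu : ∀ i, 0 ≤ u i) (j : ℕ) : u j ≤ op s u j := by
  cases j with
  | zero => exact le_rfl
  | succ j => exact le_add_of_nonneg_right (mul_nonneg hs (op_nonneg hs hu j))

theorem Pf.op {s : ℝ} (hs : 0 ≤ s) {u : ℕ → ℝ} (hu : Pf u) : Pf (op s u) := by
  have h1 : ∀ i j k, i ≤ j → u (j + k) * NC86.op s u i ≤ u (i + k) * NC86.op s u j := by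
    intro i
    induction i with
    | zero =>
      intro j k _
      have h := hu.2 0 j k (Nat.zero_le _)
      calc u (j + k) * NC86.op s u 0 = u 0 * u (j + k) := by
            show u (j + k) * u 0 = _
            ring
        _ ≤ u (0 + k) * u j := h
        _ ≤ u (0 + k) * NC86.op s u j := mul_le_mul_of_nonneg_left (le_op hs hu.1 j) (hu.1 _)
    | succ i ih =>
      intro j k hij
      obtain ⟨j, rfl⟩ : ∃ l, j = l + 1 := ⟨j - 1, by omega⟩
      have h := hu.2 (i + 1) (j + 1) k hij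
      have h' := mul_le_mul_of_nonneg_left (ih j (k + 1) (by omega)) hs
      rw [show j + (k + 1) = j + 1 + k by ring, show i + (k + 1) = i + 1 + k by ring] at h'
      show u (j + 1 + k) * (u (i + 1) + s * NC86.op s u i) ≤
        u (i + 1 + k) * (u (j + 1) + s * NC86.op s u j)
      linarith
  refine ⟨op_nonneg hs hu.1, fun i j k hij => ?_⟩
  induction k with
  | zero => simp
  | succ k ih =>
    have h := h1 i j (k + 1) hij
    have h' := mul_le_mul_of_nonneg_left ih hs
    show NC86.op s u i * (u (j + k + 1) + s * NC86.op s u (j + k)) ≤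
      (u (i + k + 1) + s * NC86.op s u (i + k)) * NC86.op s u j
    rw [← add_assoc, ← add_assoc] at h
    linarith

/-- The geometric sums. -/
noncomputable def Hg (s t : ℝ) (p q m : ℕ) : ℝ :=
  ∑ x ∈ antidiagonal m, ((p + x.1).choose x.1 : ℝ) * ((q + x.2).choose x.2 : ℝ) *
    (s ^ x.1 * t ^ x.2)

lemma Hg_symm (s t : ℝ) (p q m : ℕ) : Hg s t p q m = Hg t s q p m := by
  unfold Hg
  rw [← Finset.Nat.sum_antidiagonal_swap]
  refine Finset.sum_congr rfl fun x _ => ?_
  simp only [Prod.fst_swap, Prod.snd_swap]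
  ring

lemma Hg_succ_left (s t : ℝ) (p q m : ℕ) :
    Hg s t (p + 1) q (m + 1) = Hg s t p q (m + 1) + s * Hg s t (p + 1) q m := by
  unfold Hg
  rw [Finset.Nat.sum_antidiagonal_succ, Finset.Nat.sum_antidiagonal_succ, Finset.mul_sum]
  have key : ∑ x ∈ antidiagonal m, ((p + 1 + (x.1 + 1, x.2).1).choose (x.1 + 1, x.2).1 : ℝ) *
      ((q + (x.1 + 1, x.2).2).choose (x.1 + 1, x.2).2 : ℝ) *
        (s ^ (x.1 + 1, x.2).1 * t ^ (x.1 + 1, x.2).2) =
      ∑ x ∈ antidiagonal m, ((p + (x.1 + 1, x.2).1).choose (x.1 + 1, x.2).1 : ℝ) *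
      ((q + (x.1 + 1, x.2).2).choose (x.1 + 1, x.2).2 : ℝ) *
        (s ^ (x.1 + 1, x.2).1 * t ^ (x.1 + 1, x.2).2) +
      ∑ x ∈ antidiagonal m, s * (((p + 1 + x.1).choose x.1 : ℝ) * ((q + x.2).choose x.2 : ℝ) *
        (s ^ x.1 * t ^ x.2)) := by
    rw [← Finset.sum_add_distrib]
    refine Finset.sum_congr rfl fun x _ => ?_
    have : ((p + 1 + (x.1 + 1)).choose (x.1 + 1) : ℝ) =
        ((p + 1 + x.1).choose x.1 : ℝ) + ((p + (x.1 + 1)).choose (x.1 + 1) : ℝ) := by
      rw [show p + 1 + (x.1 + 1) = (p + 1 + x.1) + 1 by ring, Nat.choose_succ_succ,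
        show p + (x.1 + 1) = p + 1 + x.1 by ring]
      push_cast
      ring
    simp only [this]
    ring
  rw [key]
  simp only [Nat.choose_zero_right]
  ring

lemma Hg_zero (s t : ℝ) (p q : ℕ) : Hg s t p q 0 = 1 := by
  unfold Hg
  simp

lemma Hg_op_left (s t : ℝ) (p q : ℕ) : (fun m => Hg s t (p + 1) q m) = op s (fun m => Hg s t p q m) := by
  funext m
  induction m with
  | zero => show Hg s t (p + 1) q 0 = Hg s t p q 0; rw [Hg_zero, Hg_zero]
  | succ m ih =>
    show Hg s t (p + 1) q (m + 1) = Hg s t p q (m + 1) + s * op s (fun m => Hg s t p q m) m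
    rw [Hg_succ_left, ← ih]

lemma Hg_succ_right (s t : ℝ) (p q m : ℕ) :
    Hg s t p (q + 1) (m + 1) = Hg s t p q (m + 1) + t * Hg s t p (q + 1) m := by
  rw [Hg_symm, Hg_succ_left, Hg_symm t s q p, Hg_symm t s (q + 1) p]

lemma Hg_base (s t : ℝ) : (fun m => Hg s t 0 0 m) = op s (fun m => t ^ m) := by
  funext m
  induction m with
  | zero => show Hg s t 0 0 0 = t ^ 0; rw [Hg_zero, pow_zero]
  | succ m ih =>
    show Hg s t 0 0 (m + 1) = t ^ (m + 1) + s * op s (fun m => t ^ m) m
    rw [← ih]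
    unfold Hg
    rw [Finset.Nat.sum_antidiagonal_succ, Finset.mul_sum]
    congr 1
    · simp
    · refine Finset.sum_congr rfl fun x _ => ?_
      simp only [zero_add, Nat.choose_self, Nat.cast_one, one_mul]
      ring

theorem Pf_Hg {s t : ℝ} (hs : 0 ≤ s) (ht : 0 ≤ t) (p q : ℕ) : Pf (fun m => Hg s t p q m) := by
  induction p with
  | zero =>
    induction q with
    | zero =>
      rw [Hg_base]
      refine Pf.op hs ⟨fun i => pow_nonneg ht i, fun i j k _ => le_of_eq ?_⟩
      simp only [pow_add]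
      ring
    | succ q ih =>
      have : (fun m => Hg s t 0 (q + 1) m) = op t (fun m => Hg s t 0 q m) := by
        have h := Hg_op_left t s q 0
        funext m
        have h1 : Hg t s (q + 1) 0 m = op t (fun m => Hg t s q 0 m) m := congrFun h m
        rw [Hg_symm, h1]
        congr 1
        funext m
        rw [Hg_symm]
      rw [this]
      exact Pf.op ht ih
  | succ p ih =>
    rw [Hg_op_left]
    exact Pf.op hs ih

/-- Log-concavity in the letters, for geometric sequences. -/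
theorem Hg_lc {s t : ℝ} (hs : 0 ≤ s) (ht : 0 ≤ t) (a b m : ℕ) :
    Hg s t a (b + 2) m * Hg s t (a + 2) b m ≤ Hg s t (a + 1) (b + 1) m ^ 2 := by
  rcases m with _ | _ | m
  · simp [Hg_zero]
  · have e1 := Hg_succ_left s t (a + 1) (b + 1) 0
    have e2 := Hg_succ_left s t a (b + 1) 0
    have e3 := Hg_succ_right s t a (b + 1) 0
    have e4 := Hg_succ_left s t (a + 1) b 0
    have e5 := Hg_succ_right s t (a + 1) b 0
    simp only [Hg_zero, zero_add, mul_one] at e1 e2 e3 e4 e5 ⊢
    have h1 : Hg s t a (b + 2) 1 = Hg s t (a + 1) (b + 1) 1 - (s - t) := by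
      rw [show b + 2 = b + 1 + 1 by ring, e3, e2]; ring
    have h2 : Hg s t (a + 2) b 1 = Hg s t (a + 1) (b + 1) 1 + (s - t) := by
      rw [show a + 2 = a + 1 + 1 by ring, e4, e5]; ring
    rw [h1, h2]
    nlinarith [sq_nonneg (s - t)]
  · have hu := (Pf_Hg hs ht (a + 2) (b + 2)).2 m (m + 1) 1 (by omega)
    simp only at hu
    -- relations
    have l1 := Hg_succ_left s t (a + 1) (b + 2) (m + 1)
    have l2 := Hg_succ_left s t (a + 1) (b + 2) m
    have r1 := Hg_succ_right s t (a + 2) (b + 1) (m + 1)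
    have r2 := Hg_succ_right s t (a + 2) (b + 1) m
    have l3 := Hg_succ_left s t (a + 1) (b + 1) (m + 1)
    have l4 := Hg_succ_left s t a (b + 2) (m + 1)
    have r4 := Hg_succ_right s t (a + 2) b (m + 1)
    rw [show a + 1 + 1 = a + 2 by ring] at l1 l2 l3
    rw [show b + 1 + 1 = b + 2 by ring] at r1 r2
    rw [show m + 1 + 1 = m + 2 by ring] at *
    set U := Hg s t (a + 2) (b + 2) (m + 2) with hU
    set V := Hg s t (a + 2) (b + 2) (m + 1) with hV
    set Z := Hg s t (a + 2) (b + 2) m with hZ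
    have k1 : Hg s t (a + 1) (b + 2) (m + 2) = U - s * V := by linarith
    have k2 : Hg s t (a + 1) (b + 2) (m + 1) = V - s * Z := by linarith
    have k3 : Hg s t (a + 2) (b + 1) (m + 2) = U - t * V := by linarith
    have k4 : Hg s t (a + 2) (b + 1) (m + 1) = V - t * Z := by linarith
    have k5 : Hg s t (a + 1) (b + 1) (m + 2) = U - t * V - s * (V - t * Z) := by
      rw [← k3, ← k4]; linarith
    have k6 : Hg s t a (b + 2) (m + 2) = U - s * V - s * (V - s * Z) := by
      rw [← k1, ← k2]; linarith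
    have k7 : Hg s t (a + 2) b (m + 2) = U - t * V - t * (V - t * Z) := by
      rw [← k3, ← k4]; linarith
    rw [k5, k6, k7]
    have hu' : Z * U ≤ V * V := hu
    have h := mul_nonneg (sq_nonneg (s - t)) (sub_nonneg.2 hu')
    nlinarith [h]

end Pool.NC86
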