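import Pool.Agent.NC86.Disj

set_option autoImplicit false

/-!
# NC86/Steps: building up a poset by two-dimensional pieces
-/

open Polynomial Finset

namespace Pool.NC86

open Pool.GT34 Pool.UC86 Pool.DU31

/-- The ordinal step, as a hypothesis. -/
def OrdStep : Prop :=
  ∀ (V : Type) [PartialOrder V] [Fintype V] (p : V → Prop) [Fintype {x // p x}]
    [Fintype {x // ¬ p x}],
    ((∀ x y, p x → ¬ p y → x < y) ∨ (∀ x y, p x → ¬ p y → y < x)) →
    ∀ ω : V → ℤ, Function.Injective ω → (∀ x y, x < y → ω x < ω y) →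
    Lc (W (Dl (fun x : {x // p x} => ω x)) Finset.univ) →
    Uni (W (Dl (fun x : {x // ¬ p x} => ω x)) Finset.univ) →
    Uni (W (Dl ω) (Finset.univ : Finset V))

/-- Transport of unimodality. -/
theorem uni_transport {V V' : Type} [PartialOrder V] [PartialOrder V'] [Fintype V] [Fintype V']
    (e : V ≃o V') (ω : V → ℤ) (ω' : V' → ℤ) (hi : Function.Injective ω)
    (hi' : Function.Injective ω') (he : ∀ x, ω' (e x) = ω x)
    (h : Uni (W (Dl ω) (Finset.univ : Finset V))) :
    Uni (W (Dl ω') (Finset.univ : Finset V')) := by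
  rcases isEmpty_or_nonempty V with h1 | h1
  · have : IsEmpty V' := e.symm.toEquiv.isEmpty
    rw [W_empty_type]
    exact uni_zero
  · rw [← W_congr e ω ω' hi hi' he]
    exact h

/-- The hypothesis on the levels: order dimension at most two. -/
def DimTwo (V : Type) [PartialOrder V] : Prop :=
  ∃ r s : V → ℕ, ∀ x y : V, x ≤ y ↔ r x ≤ r y ∧ s x ≤ s y

/-- Level `i` is incomparable with, or above, or below everything of smaller level. -/
def Lev {V : Type} [PartialOrder V] (lev : V → ℕ) (i : ℕ) : Prop :=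
  (∀ x y, lev x < i → lev y = i → ¬ x ≤ y ∧ ¬ y ≤ x) ∨
    (∀ x y, lev x < i → lev y = i → x < y) ∨ (∀ x y, lev x < i → lev y = i → y < x)

theorem uni_levels (hO : OrdStep) {V : Type} [PartialOrder V] [Fintype V] (lev : V → ℕ)
    (hdim : ∀ i, 0 < i → DimTwo {x // lev x = i}) (hrel : ∀ i, 0 < i → Lev lev i) (ω : V → ℤ)
    (hi : Function.Injective ω) (hω : ∀ x y, x < y → ω x < ω y) [Fintype {x // lev x = 0}]
    (h0 : Uni (W (Dl (fun x : {x // lev x = 0} => ω x)) Finset.univ)) :
    Uni (W (Dl ω) (Finset.univ : Finset V)) := by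
  classical
  have key : ∀ i, Uni (W (Dl (fun x : {x // lev x ≤ i} => ω x)) Finset.univ) := by
    intro i
    induction i with
    | zero =>
      let e : {x // lev x = 0} ≃o {x // lev x ≤ 0} :=
        { toFun := fun y => ⟨y.1, y.2.le⟩
          invFun := fun z => ⟨z.1, Nat.le_zero.1 z.2⟩
          left_inv := fun y => rfl
          right_inv := fun z => rfl
          map_rel_iff' := Iff.rfl }
      exact uni_transport e (fun x : {x // lev x = 0} => ω x) _ (hi.comp Subtype.val_injective)
        (hi.comp Subtype.val_injective) (fun x => rfl) h0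
    | succ i ih =>
      let p : {x // lev x ≤ i + 1} → Prop := fun x => lev x.1 = i + 1
      have hneg : ∀ x : {x // lev x ≤ i + 1}, ¬ p x → lev x.1 ≤ i := by
        intro x hx
        have h1 := x.2
        have h2 : lev x.1 ≠ i + 1 := hx
        omega
      have hiV : Function.Injective (fun x : {x // lev x ≤ i + 1} => ω x) :=
        hi.comp Subtype.val_injective
      let e : {x // lev x ≤ i} ≃o {x : {x // lev x ≤ i + 1} // ¬ p x} :=
        { toFun := fun y => ⟨⟨y.1, y.2.trans (Nat.le_succ i)⟩, fun h => by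
            have h1 : lev y.1 = i + 1 := h
            have h2 := y.2
            omega⟩
          invFun := fun z => ⟨z.1.1, hneg z.1 z.2⟩
          left_inv := fun y => rfl
          right_inv := fun z => rfl
          map_rel_iff' := Iff.rfl }
      have hU : Uni (W (Dl (fun x : {x : {x // lev x ≤ i + 1} // ¬ p x} => ω x.1)) Finset.univ) :=
        uni_transport e (fun x : {x // lev x ≤ i} => ω x) _ (hi.comp Subtype.val_injective)
          (hiV.comp Subtype.val_injective) (fun x => rfl) ih
      obtain ⟨r, s, hrs⟩ := hdim (i + 1) (Nat.succ_pos i)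
      have hL : Lc (W (Dl (fun x : {x : {x // lev x ≤ i + 1} // p x} => ω x.1)) Finset.univ) :=
        lc_of_dim _ (hiV.comp Subtype.val_injective) (fun x y hxy => hω _ _ hxy)
          (fun x => r ⟨x.1.1, x.2⟩) (fun x => s ⟨x.1.1, x.2⟩)
          (fun x y => hrs ⟨x.1.1, x.2⟩ ⟨y.1.1, y.2⟩)
      rcases hrel (i + 1) (Nat.succ_pos i) with h | h | h
      · refine uni_disj p (fun x y hx hy => ?_) _ hiV (fun x y hxy => hω _ _ hxy) hL hU
        have h1 := h y.1 x.1 (Nat.lt_succ_of_le (hneg y hy)) hx
        exact ⟨fun h2 => h1.2 (le_of_lt h2), fun h2 => h1.1 (le_of_lt h2)⟩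
      · refine hO _ p (Or.inr fun x y hx hy => ?_) _ hiV (fun x y hxy => hω _ _ hxy) hL hU
        exact h y.1 x.1 (Nat.lt_succ_of_le (hneg y hy)) hx
      · refine hO _ p (Or.inl fun x y hx hy => ?_) _ hiV (fun x y hxy => hω _ _ hxy) hL hU
        exact h y.1 x.1 (Nat.lt_succ_of_le (hneg y hy)) hx
  obtain ⟨N, hN⟩ : ∃ N, ∀ x, lev x ≤ N := ⟨Finset.univ.sup lev, fun x => Finset.le_sup (Finset.mem_univ x)⟩
  let e : {x // lev x ≤ N} ≃o V :=
    { toFun := fun y => y.1
      invFun := fun z => ⟨z, hN z⟩
      left_inv := fun y => rfl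
      right_inv := fun z => rfl
      map_rel_iff' := Iff.rfl }
  exact uni_transport e _ ω (hi.comp Subtype.val_injective) hi (fun x => rfl) (key N)

end Pool.NC86
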